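import Pool.Agent.W55.Weird.Induct

set_option autoImplicit false

namespace Pool.Agent.W55.Weird

open Finset

lemma semiperfect_mul {n m : ℕ} (hm : m ≠ 0) (hnm : n ∣ m) (h : SSet n.properDivisors n) :
    SSet m.properDivisors m := by
  classical
  obtain ⟨k, rfl⟩ := hnm
  have hk : 0 < k := by
    rcases Nat.eq_zero_or_pos k with h0 | h0
    · exact absurd (by rw [h0]; simp) hm
    · exact h0
  obtain ⟨F, hF, hFs⟩ := h
  refine ⟨F.image (· * k), ?_, ?_⟩
  · intro x hx
    rw [Finset.mem_image] at hx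
    obtain ⟨d, hd, rfl⟩ := hx
    have := hF hd
    rw [Nat.mem_properDivisors] at this ⊢
    exact ⟨Nat.mul_dvd_mul_right this.1 k, Nat.mul_lt_mul_of_pos_right this.2 hk⟩
  · rw [Finset.sum_image (by
      intro a _ b _ hab
      exact Nat.eq_of_mul_eq_mul_right hk hab), ← Finset.sum_mul, hFs]

lemma good_semiperfect {n : ℕ} (h : Good n) (hns : ¬ SSet n.properDivisors n) : sp n ≤ 2 * n := by
  obtain ⟨A, p, hA, hA4, hp, hpn, hp8, hI⟩ := h
  by_contra hcon
  push Not at hcon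
  have hAn : A ≤ n := by
    calc A = A ^ 1 := (pow_one A).symm
      _ ≤ A ^ 4 := Nat.pow_le_pow_right hA (by norm_num)
      _ ≤ n := hA4
  exact hns (hI n hAn (by omega))

lemma prod_sq_bound (F : Finset ℕ) (hF : ∀ p ∈ F, 2 ≤ p) :
    ∏ p ∈ F, ((p : ℝ) ^ 2 / ((p : ℝ) ^ 2 - 1)) ≤ 2 := by
  classical
  have h1 : ∀ N : ℕ, ∏ k ∈ Finset.range N, (((k + 2 : ℕ) : ℝ) ^ 2 / (((k + 2 : ℕ) : ℝ) ^ 2 - 1)) =
      2 * ((N : ℝ) + 1) / ((N : ℝ) + 2) := by
    intro N
    induction N with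
    | zero => norm_num
    | succ N ih =>
      rw [Finset.prod_range_succ, ih]
      push_cast
      have e : ((N : ℝ) + 2) ^ 2 - 1 = (N + 1) * (N + 3) := by ring
      rw [e]
      have h2 : (N : ℝ) + 1 ≠ 0 := by positivity
      have h3 : (N : ℝ) + 2 ≠ 0 := by positivity
      have h4 : (N : ℝ) + 3 ≠ 0 := by positivity
      have h5 : (N : ℝ) + 1 + 2 ≠ 0 := by positivity
      field_simp
      ring
  have hge : ∀ k : ℕ, 2 ≤ k → (1 : ℝ) ≤ (k : ℝ) ^ 2 / ((k : ℝ) ^ 2 - 1) := by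
    intro k hk
    have : (2 : ℝ) ≤ k := by exact_mod_cast hk
    rw [le_div_iff₀ (by nlinarith)]
    linarith
  obtain ⟨N, hN⟩ : ∃ N, ∀ p ∈ F, p < N := ⟨F.sup id + 1, fun p hp =>
    Nat.lt_succ_of_le (Finset.le_sup (f := id) hp)⟩
  have hsub : F ⊆ (Finset.range N).image (fun k => k + 2) := by
    intro p hp
    rw [Finset.mem_image]
    refine ⟨p - 2, ?_, ?_⟩
    · rw [Finset.mem_range]; have := hN p hp; omega
    · have := hF p hp; omega
  calc ∏ p ∈ F, ((p : ℝ) ^ 2 / ((p : ℝ) ^ 2 - 1))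
      ≤ ∏ p ∈ ((Finset.range N).image (fun k : ℕ => k + 2) : Finset ℕ), (((p : ℕ) : ℝ) ^ 2 / (((p : ℕ) : ℝ) ^ 2 - 1)) := by
        apply Finset.prod_le_prod_of_subset_of_one_le hsub
        · intro i hi
          linarith [hge i (hF i hi)]
        · intro i hi _
          rw [Finset.mem_image] at hi
          obtain ⟨k, _, rfl⟩ := hi
          exact hge _ (by omega)
    _ = 2 * ((N : ℝ) + 1) / ((N : ℝ) + 2) := by
        rw [Finset.prod_image (by intro a _ b _ hab; exact Nat.add_right_cancel hab)]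
        exact h1 N
    _ ≤ 2 := by
        rw [div_le_iff₀ (by positivity)]
        linarith

lemma sg_le_prod {m : ℕ} (hm : m ≠ 0) :
    (sg m : ℝ) ≤ (∏ p ∈ m.primeFactors, ((p : ℝ) / ((p : ℝ) - 1))) * m := by
  have h1 : (sg m : ℝ) = ∏ p ∈ m.primeFactors,
      ((∑ k ∈ Finset.range (m.factorization p + 1), p ^ k : ℕ) : ℝ) := by
    unfold sg
    rw [Nat.sum_divisors hm]
    push_cast
    rfl
  have h2 : (m : ℝ) = ∏ p ∈ m.primeFactors, ((p ^ (m.factorization p) : ℕ) : ℝ) := by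
    conv_lhs => rw [← Nat.prod_factorization_pow_eq_self hm]
    rw [Finsupp.prod, Nat.support_factorization]
    push_cast
    rfl
  rw [h1]
  conv_rhs => rw [h2]
  rw [← Finset.prod_mul_distrib]
  apply Finset.prod_le_prod
  · intro p _; positivity
  · intro p hp
    have hp2 : (2 : ℝ) ≤ p := by exact_mod_cast (Nat.prime_of_mem_primeFactors hp).two_le
    have hpos : (0 : ℝ) < (p : ℝ) - 1 := by linarith
    push_cast
    rw [geom_sum_eq (by linarith), div_mul_eq_mul_div, div_le_div_iff_of_pos_right hpos, pow_succ]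
    linarith

theorem weird_bounded : ∃ C : ℝ, ∀ m : ℕ, 0 < m → ¬ SSet m.properDivisors m →
    (sg m : ℝ) ≤ C * m := by
  classical
  obtain ⟨B, hB⟩ : ∃ B : ℕ, B = 2 ^ (8 * 40) := ⟨_, rfl⟩
  refine ⟨2 ^ B * ((1 + 2) * Real.exp (4 * (1 / 2) ^ 40)) * 2, ?_⟩
  intro m hm hns
  have hm0 : m ≠ 0 := hm.ne'
  set F := m.primeFactors with hF
  have hFp : ∀ p ∈ F, p.Prime := fun p hp => Nat.prime_of_mem_primeFactors hp
  set L := F.filter (fun p => B ≤ p) with hL
  have hLp : ∀ p ∈ L, p.Prime := fun p hp => hFp p (Finset.filter_subset _ _ hp)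
  set v := ∏ p ∈ L, p with hv
  have hvm : v ∣ m :=
    (Finset.prod_dvd_prod_of_subset _ _ _ (Finset.filter_subset _ _)).trans
      (Nat.prod_primeFactors_dvd m)
  have hvsq : Squarefree v := squarefree_prod hLp
  have hvpos : (0 : ℝ) < v := by exact_mod_cast Nat.pos_of_ne_zero hvsq.ne_zero
  have h1 := main_ind v v 40 2 le_rfl le_rfl hvsq (by
    intro p hp hpv
    obtain ⟨q, hq, hpq⟩ := (hp.prime.dvd_finsetProd_iff _).mp hpv
    rw [(Nat.prime_dvd_prime_iff_eq hp (hLp q hq)).mp hpq, ← hB]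
    rw [hL, Finset.mem_filter] at hq
    exact hq.2) (by norm_num) (by
    intro n hn hgood
    have := good_semiperfect hgood (fun h => hns (semiperfect_mul hm0 (hn.trans hvm) h))
    exact_mod_cast this)
  have h2 : ∏ p ∈ L, (1 + 1 / (p : ℝ)) ≤ (1 + 2) * Real.exp (4 * (1 / 2) ^ 40) := by
    have h3 := sg_prod hLp
    rw [← hv] at h3
    rw [h3] at h1
    exact le_of_mul_le_mul_right h1 hvpos
  have h3 : ∏ p ∈ F \ L, (1 + 1 / (p : ℝ)) ≤ 2 ^ B := by
    calc ∏ p ∈ F \ L, (1 + 1 / (p : ℝ)) ≤ ∏ p ∈ F \ L, (2 : ℝ) := by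
          apply Finset.prod_le_prod
          · intro p _; positivity
          · intro p hp
            have hp1 : (1 : ℝ) ≤ p := by
              exact_mod_cast (hFp p (Finset.mem_sdiff.mp hp).1).one_le
            have : 1 / (p : ℝ) ≤ 1 := by
              rw [div_le_one (by linarith)]; exact hp1
            linarith
      _ = 2 ^ (F \ L).card := by simp
      _ ≤ 2 ^ B := by
          apply pow_le_pow_right₀ (by norm_num)
          have hsub : F \ L ⊆ Finset.range B := by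
            intro p hp
            rw [Finset.mem_sdiff, hL, Finset.mem_filter] at hp
            rw [Finset.mem_range]
            by_contra hcon
            exact hp.2 ⟨hp.1, by omega⟩
          calc _ ≤ (Finset.range B).card := Finset.card_le_card hsub
            _ = B := Finset.card_range _
  have h4 := prod_sq_bound F (fun p hp => (hFp p hp).two_le)
  have h5 := sg_le_prod hm0
  have h6 : ∏ p ∈ F, ((p : ℝ) / ((p : ℝ) - 1)) =
      (∏ p ∈ F \ L, (1 + 1 / (p : ℝ))) * (∏ p ∈ L, (1 + 1 / (p : ℝ))) *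
        ∏ p ∈ F, ((p : ℝ) ^ 2 / ((p : ℝ) ^ 2 - 1)) := by
    rw [Finset.prod_sdiff (Finset.filter_subset _ _), ← Finset.prod_mul_distrib]
    apply Finset.prod_congr rfl
    intro p hp
    have hp2 : (2 : ℝ) ≤ p := by exact_mod_cast (hFp p hp).two_le
    have e1 : (p : ℝ) - 1 ≠ 0 := by linarith
    have e2 : (p : ℝ) ≠ 0 := by linarith
    have e3 : (p : ℝ) + 1 ≠ 0 := by linarith
    have e4 : (p : ℝ) ^ 2 - 1 = (p - 1) * (p + 1) := by ring
    rw [e4]
    field_simp
  refine h5.trans ?_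
  apply mul_le_mul_of_nonneg_right _ (by positivity)
  rw [h6]
  have hn1 : 0 ≤ ∏ p ∈ F \ L, (1 + 1 / (p : ℝ)) := Finset.prod_nonneg (fun p _ => by positivity)
  have hn2 : 0 ≤ ∏ p ∈ L, (1 + 1 / (p : ℝ)) := Finset.prod_nonneg (fun p _ => by positivity)
  have hn3 : (0 : ℝ) ≤ 2 ^ B := by positivity
  apply mul_le_mul _ h4
  · apply Finset.prod_nonneg
    intro p hp
    have hp2 : (2 : ℝ) ≤ p := by exact_mod_cast (hFp p hp).two_le
    apply div_nonneg (by positivity)
    nlinarith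
  · apply mul_nonneg hn3
    positivity
  · exact mul_le_mul h3 h2 hn2 hn3

end Pool.Agent.W55.Weird
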