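import Mathlib

set_option autoImplicit false

namespace Pool.Agent.W55.Weird

open Finset

/-- `x` is a sum of distinct elements of `D`. -/
def SSet (D : Finset ℕ) (x : ℕ) : Prop := ∃ F ⊆ D, ∑ i ∈ F, i = x

/-- the sum of the proper divisors -/
def sp (n : ℕ) : ℕ := ∑ d ∈ n.properDivisors, d

/-- the sum of all divisors -/
def sg (n : ℕ) : ℕ := ∑ d ∈ n.divisors, d

lemma sg_eq {n : ℕ} : sg n = sp n + n := by
  unfold sg sp
  rw [Nat.sum_divisors_eq_sum_properDivisors_add_self]

/-- every number in `[A, sp n - A]` is a sum of distinct proper divisors. -/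
def Itv (n A : ℕ) : Prop := ∀ x, A ≤ x → x + A ≤ sp n → SSet n.properDivisors x

/-- gap condition -/
def Gap (n g : ℕ) : Prop := ∀ t' ≤ sp n, ∃ t, SSet n.properDivisors t ∧ t ≤ t' ∧ t' < t + g

lemma SSet.mono {D E : Finset ℕ} (h : D ⊆ E) {x : ℕ} (hx : SSet D x) : SSet E x := by
  obtain ⟨F, hF, rfl⟩ := hx
  exact ⟨F, hF.trans h, rfl⟩

lemma SSet.compl {D : Finset ℕ} {x : ℕ} (hx : SSet D x) : SSet D (∑ i ∈ D, i - x) := by
  obtain ⟨F, hF, rfl⟩ := hx
  refine ⟨D \ F, sdiff_subset, ?_⟩
  rw [← Finset.sum_sdiff hF]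
  omega

lemma SSet.le {D : Finset ℕ} {x : ℕ} (hx : SSet D x) : x ≤ ∑ i ∈ D, i := by
  obtain ⟨F, hF, rfl⟩ := hx
  exact Finset.sum_le_sum_of_subset hF

lemma Itv.gap {n A : ℕ} (h : Itv n A) (hA : 1 ≤ A) (h2 : 2 * A ≤ sp n) : Gap n A := by
  intro t' ht'
  by_cases h1 : t' < A
  · exact ⟨0, ⟨∅, by simp, by simp⟩, by omega, by omega⟩
  · by_cases h3 : t' + A ≤ sp n
    · exact ⟨t', h t' (by omega) h3, le_rfl, by omega⟩
    · by_cases h4 : t' = sp n
      · exact ⟨t', ⟨n.properDivisors, subset_rfl, h4.symm⟩, le_rfl, by omega⟩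
      · exact ⟨sp n - A, h _ (by omega) (by omega), by omega, by omega⟩

lemma gap_prime {q : ℕ} (hq : q.Prime) : Gap q 1 := by
  intro t' ht'
  have : q.properDivisors = {1} := hq.properDivisors
  unfold sp at ht'
  rw [this] at ht'
  simp at ht'
  have : t' = 0 ∨ t' = 1 := by omega
  rcases this with rfl | rfl
  · exact ⟨0, ⟨∅, by simp, by simp⟩, by omega, by omega⟩
  · exact ⟨1, ⟨{1}, by rw [hq.properDivisors], by simp⟩, by omega, by omega⟩

/-- filling: combinations `∑ d * y d` with `y d ≤ L` cover everything. -/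
lemma fill (D : Finset ℕ) (L : ℕ) (h1 : 1 ∈ D) (hD : ∀ d ∈ D, 1 ≤ d ∧ d ≤ L + 1) (z : ℕ)
    (hz : z ≤ L * ∑ d ∈ D, d) : ∃ y : ℕ → ℕ, (∀ d ∈ D, y d ≤ L) ∧ ∑ d ∈ D, d * y d = z := by
  classical
  -- induct on D \ {1}
  suffices H : ∀ E : Finset ℕ, (1 ∉ E) → (∀ d ∈ E, 1 ≤ d ∧ d ≤ L + 1) → ∀ z,
      z ≤ L * (1 + ∑ d ∈ E, d) → ∃ y : ℕ → ℕ, (∀ d ∈ insert 1 E, y d ≤ L) ∧
        ∑ d ∈ insert 1 E, d * y d = z by
    have := H (D.erase 1) (by simp) (fun d hd => hD d (Finset.mem_of_mem_erase hd)) z (by
      rwa [Finset.add_sum_erase D (fun d => d) h1])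
    rwa [Finset.insert_erase h1] at this
  intro E
  induction E using Finset.induction_on with
  | empty =>
    intro _ _ z hz
    refine ⟨fun _ => z, ?_, ?_⟩
    · simpa using hz
    · simp
  | insert a E ha ih =>
    intro h1E hE z hz
    have h1a : (1 : ℕ) ≠ a := by
      intro h; apply h1E; simp [h]
    have h1E' : (1 : ℕ) ∉ E := fun h => h1E (Finset.mem_insert_of_mem h)
    have hE' : ∀ d ∈ E, 1 ≤ d ∧ d ≤ L + 1 := fun d hd => hE d (Finset.mem_insert_of_mem hd)
    have haL := hE a (Finset.mem_insert_self _ _)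
    rw [Finset.sum_insert ha] at hz
    by_cases hc : a * L ≤ z
    · obtain ⟨y, hy1, hy2⟩ := ih h1E' hE' (z - a * L) (by
        have : L * (1 + (a + ∑ d ∈ E, d)) = L * (1 + ∑ d ∈ E, d) + a * L := by ring
        omega)
      refine ⟨fun d => if d = a then L else y d, ?_, ?_⟩
      · intro d hd
        by_cases hda : d = a
        · simp [hda]
        · simp only [hda, if_false]
          apply hy1
          simp only [Finset.mem_insert] at hd ⊢
          tauto
      · rw [Finset.insert_comm, Finset.sum_insert (by simp [ha, h1a.symm])]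
        simp only [if_true]
        have : ∑ d ∈ insert 1 E, d * (if d = a then L else y d) = ∑ d ∈ insert 1 E, d * y d := by
          apply Finset.sum_congr rfl
          intro d hd
          have : d ≠ a := by
            rintro rfl
            simp only [Finset.mem_insert] at hd
            rcases hd with h | h
            · exact h1a h.symm
            · exact ha h
          simp [this]
        rw [this, hy2]
        omega
    · push Not at hc
      obtain ⟨y, hy1, hy2⟩ := ih h1E' hE' (z % a) (by
        have h3 : z % a < a := Nat.mod_lt _ (by omega)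
        have h4 : L ≤ L * (1 + ∑ d ∈ E, d) := Nat.le_mul_of_pos_right _ (by omega)
        omega)
      refine ⟨fun d => if d = a then z / a else y d, ?_, ?_⟩
      · intro d hd
        by_cases hda : d = a
        · simp only [hda, if_true]
          have : z / a < L := by
            rw [Nat.div_lt_iff_lt_mul (by omega)]
            linarith [mul_comm a L]
          exact this.le
        · simp only [hda, if_false]
          apply hy1
          simp only [Finset.mem_insert] at hd ⊢
          tauto
      · rw [Finset.insert_comm, Finset.sum_insert (by simp [ha, h1a.symm])]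
        simp only [if_true]
        have : ∑ d ∈ insert 1 E, d * (if d = a then z / a else y d) = ∑ d ∈ insert 1 E, d * y d := by
          apply Finset.sum_congr rfl
          intro d hd
          have : d ≠ a := by
            rintro rfl
            simp only [Finset.mem_insert] at hd
            rcases hd with h | h
            · exact h1a h.symm
            · exact ha h
          simp [this]
        rw [this, hy2]
        exact Nat.div_add_mod z a

end Pool.Agent.W55.Weird
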