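import Pool.Agent.W55.Weird.Main

set_option autoImplicit false

namespace Pool.Agent.W55.Weird

open Finset

lemma arith7 {q A S a : ℝ} (ha : 2 ≤ a) (hq : 0 ≤ q) (hA : A ≤ a ^ 2) (hS : a ^ 7 ≤ S)
    (h : S + 1 < (q + 2) * A) : a ^ 4 < q := by
  have h1 : a ^ 7 < (q + 2) * a ^ 2 := by
    calc a ^ 7 < S + 1 := by linarith
      _ < (q + 2) * A := h
      _ ≤ _ := mul_le_mul_of_nonneg_left hA (by linarith)
  have h2 : a ^ 5 * a ^ 2 < (q + 2) * a ^ 2 := by
    have : a ^ 5 * a ^ 2 = a ^ 7 := by ring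
    rw [this]; exact h1
  have h3 : a ^ 5 < q + 2 := lt_of_mul_lt_mul_right h2 (by positivity)
  have h4 : (2 : ℝ) ^ 4 ≤ a ^ 4 := pow_le_pow_left₀ (by norm_num) ha 4
  have h5 : a ^ 5 = a * a ^ 4 := by ring
  nlinarith

lemma arith6 {Q S A a : ℝ} (ha : 2 ≤ a) (hQ : 1 ≤ Q) (hA : A ≤ a ^ 2) (hS : a ^ 7 ≤ S)
    (h1 : Q * S + 1 < a ^ 8 + 2 * A * Q) (h2 : a ^ 8 ≤ (Q - 1) * S) : False := by
  have h3 : S + 1 < 2 * A * Q := by nlinarith
  have h4 : a ^ 7 < 2 * a ^ 2 * Q := by
    calc a ^ 7 < S + 1 := by linarith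
      _ < 2 * A * Q := h3
      _ ≤ _ := by nlinarith
  have ha2 : 0 < a ^ 2 := by positivity
  have h5 : a ^ 5 < 2 * Q := by
    have : a ^ 2 * a ^ 5 < a ^ 2 * (2 * Q) := by
      calc a ^ 2 * a ^ 5 = a ^ 7 := by ring
        _ < _ := h4
        _ = _ := by ring
    exact lt_of_mul_lt_mul_left this ha2.le
  have h6 : Q * (S - 2 * A) < a ^ 8 := by nlinarith
  have h7 : (2 : ℝ) ^ 4 ≤ a ^ 4 := pow_le_pow_left₀ (by norm_num) ha 4
  have h8 : a ^ 7 / 2 ≤ S - 2 * A := by
    have : 4 * a ^ 2 ≤ a ^ 7 := by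
      have e : a ^ 7 = a ^ 2 * (a * a ^ 4) := by ring
      have e3 : 4 ≤ a * a ^ 4 := by nlinarith
      have e4 := mul_le_mul_of_nonneg_left e3 ha2.le
      rw [e]
      linarith
    linarith
  have h9 : Q * (a ^ 7 / 2) < a ^ 8 := by
    calc Q * (a ^ 7 / 2) ≤ Q * (S - 2 * A) := mul_le_mul_of_nonneg_left h8 (by linarith)
      _ < _ := h6
  have h10 : Q < 2 * a := by
    have : a ^ 7 * Q < a ^ 7 * (2 * a) := by
      calc a ^ 7 * Q = 2 * (Q * (a ^ 7 / 2)) := by ring
        _ < 2 * a ^ 8 := by linarith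
        _ = _ := by ring
    exact lt_of_mul_lt_mul_left this (by positivity)
  have h11 : a ^ 5 = a * a ^ 4 := by ring
  nlinarith

lemma arith8 {a b g S A A' : ℝ} (ha : 2 ≤ a) (hb : a ^ 4 ≤ b) (hg : a ^ 8 ≤ g)
    (hS : b ^ 7 ≤ S) (hA : A ≤ a ^ 2) (hA' : A' ≤ b ^ 2)
    (h : g * S + 1 < b ^ 8 * A + 2 * A' * g) : a ^ 6 * S ≤ 3 * b ^ 8 := by
  have hab : a ≤ b := by
    have h7 : (2 : ℝ) ^ 3 ≤ a ^ 3 := pow_le_pow_left₀ (by norm_num) ha 3
    have : a ^ 4 = a * a ^ 3 := by ring
    nlinarith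
  have hb2 : 2 ≤ b := ha.trans hab
  have hg0 : 0 < g := lt_of_lt_of_le (by positivity) hg
  have hpos : 0 ≤ S - 2 * b ^ 2 := by
    have h7 : (2 : ℝ) ^ 5 ≤ b ^ 5 := pow_le_pow_left₀ (by norm_num) hb2 5
    have e : b ^ 7 = b ^ 2 * b ^ 5 := by ring
    have : 0 < b ^ 2 := by positivity
    nlinarith
  have h1 : g * (S - 2 * b ^ 2) < b ^ 8 * a ^ 2 := by
    have e1 : b ^ 8 * A ≤ b ^ 8 * a ^ 2 := mul_le_mul_of_nonneg_left hA (by positivity)
    have e2 : A' * g ≤ b ^ 2 * g := mul_le_mul_of_nonneg_right hA' hg0.le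
    nlinarith
  have h2 : a ^ 8 * (S - 2 * b ^ 2) < b ^ 8 * a ^ 2 :=
    lt_of_le_of_lt (mul_le_mul_of_nonneg_right hg hpos) h1
  have ha2 : 0 < a ^ 2 := by positivity
  have h3 : a ^ 6 * (S - 2 * b ^ 2) < b ^ 8 := by
    have : a ^ 2 * (a ^ 6 * (S - 2 * b ^ 2)) < a ^ 2 * b ^ 8 := by
      calc a ^ 2 * (a ^ 6 * (S - 2 * b ^ 2)) = a ^ 8 * (S - 2 * b ^ 2) := by ring
        _ < _ := h2
        _ = _ := by ring
    exact lt_of_mul_lt_mul_left this ha2.le
  have h4 : a ^ 6 ≤ b ^ 6 := pow_le_pow_left₀ (by linarith) hab 6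
  have h5 : a ^ 6 * b ^ 2 ≤ b ^ 6 * b ^ 2 := mul_le_mul_of_nonneg_right h4 (by positivity)
  have h6 : b ^ 6 * b ^ 2 = b ^ 8 := by ring
  nlinarith

lemma arithM1 {a b g S A' : ℝ} (ha : 2 ≤ a) (hb : a ^ 4 ≤ b) (hg : g ≤ a ^ 16)
    (hS : b ^ 7 ≤ S) (hA'0 : 0 ≤ A') (hA' : A' ≤ b ^ 2) : (g + 1) * A' ≤ S + 1 := by
  have hb16 : (2 : ℝ) ^ 4 ≤ b := (pow_le_pow_left₀ (by norm_num) ha 4).trans hb
  have hb2 : 2 ≤ b := by linarith
  have h1 : a ^ 16 ≤ b ^ 4 := by
    calc a ^ 16 = (a ^ 4) ^ 4 := by ring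
      _ ≤ b ^ 4 := pow_le_pow_left₀ (by positivity) hb 4
  have h2 : g + 1 ≤ 2 * b ^ 4 := by
    have : (2 : ℝ) ^ 4 ≤ b ^ 4 := pow_le_pow_left₀ (by norm_num) hb2 4
    linarith
  calc (g + 1) * A' ≤ (2 * b ^ 4) * A' := mul_le_mul_of_nonneg_right h2 hA'0
    _ ≤ (2 * b ^ 4) * b ^ 2 := mul_le_mul_of_nonneg_left hA' (by positivity)
    _ ≤ b ^ 7 := by
        have e : b ^ 7 = b * b ^ 6 := by ring
        have e2 : (2 * b ^ 4) * b ^ 2 = 2 * b ^ 6 := by ring
        rw [e, e2]
        exact mul_le_mul_of_nonneg_right hb2 (by positivity)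
    _ ≤ _ := by linarith

lemma exp_combine {I : ℕ} (hI : 40 ≤ I) :
    Real.exp (2 * (1 / 2) ^ I) * ((1 + 3 * (1 / 2) ^ (48 * I)) * Real.exp (4 * (1 / 2) ^ (4 * I)))
      ≤ Real.exp (4 * (1 / 2) ^ I) := by
  have h1 : (1 : ℝ) + 3 * (1 / 2) ^ (48 * I) ≤ Real.exp (3 * (1 / 2) ^ (48 * I)) := by
    rw [add_comm]; exact Real.add_one_le_exp _
  calc _ ≤ Real.exp (2 * (1 / 2) ^ I) *
        (Real.exp (3 * (1 / 2) ^ (48 * I)) * Real.exp (4 * (1 / 2) ^ (4 * I))) := by
        apply mul_le_mul_of_nonneg_left _ (Real.exp_pos _).le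
        exact mul_le_mul_of_nonneg_right h1 (Real.exp_pos _).le
    _ = Real.exp (2 * (1 / 2) ^ I + (3 * (1 / 2) ^ (48 * I) + 4 * (1 / 2) ^ (4 * I))) := by
        rw [Real.exp_add, Real.exp_add]
    _ ≤ _ := by
        apply Real.exp_le_exp.mpr
        have e1 : ((1 : ℝ) / 2) ^ (48 * I) ≤ (1 / 2) ^ (I + 3) :=
          pow_le_pow_of_le_one (by norm_num) (by norm_num) (by omega)
        have e2 : ((1 : ℝ) / 2) ^ (4 * I) ≤ (1 / 2) ^ (I + 3) :=
          pow_le_pow_of_le_one (by norm_num) (by norm_num) (by omega)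
        have e3 : ((1 : ℝ) / 2) ^ (I + 3) = (1 / 2) ^ I * (1 / 8) := by
          rw [pow_add]; norm_num
        have e4 : (0 : ℝ) < (1 / 2) ^ I := by positivity
        rw [e3] at e1 e2
        linarith

theorem main_ind (N : ℕ) : ∀ (v I : ℕ) (τ : ℝ), v ≤ N → 40 ≤ I → Squarefree v →
    (∀ p, p.Prime → p ∣ v → 2 ^ (8 * I) ≤ p) → 0 ≤ τ →
    (∀ n, n ∣ v → Good n → (sp n : ℝ) ≤ τ * n) →
    (sg v : ℝ) ≤ (1 + τ) * Real.exp (4 * (1 / 2) ^ I) * v := by
  classical
  induction N with
  | zero =>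
    intro v I τ hvN _ hv _ _ _
    exact absurd (Nat.le_zero.mp hvN) hv.ne_zero
  | succ N ih =>
    intro v I τ hvN hI hv hp hτ hg
    have hv0 : v ≠ 0 := hv.ne_zero
    by_cases hno : ∀ n, n ∣ v → ¬ Good n
    · have h1 := no_good hI hv hp hno
      refine h1.trans ?_
      apply mul_le_mul_of_nonneg_right _ (by positivity)
      have h2 : Real.exp (2 * (1 / 2) ^ I) ≤ Real.exp (4 * (1 / 2) ^ I) := by
        apply Real.exp_le_exp.mpr
        have : (0 : ℝ) < (1 / 2) ^ I := by positivity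
        linarith
      have h3 : 0 < Real.exp (4 * (1 / 2) ^ I) := Real.exp_pos _
      nlinarith
    · push Not at hno
      obtain ⟨n0, hn0v, hn0⟩ := hno
      -- maximal good divisor
      obtain ⟨n, hnmem, hnmax⟩ := Finset.exists_max_image (v.divisors.filter Good)
        (fun m => (sg m : ℝ) / m) ⟨n0, by
          rw [Finset.mem_filter, Nat.mem_divisors]; exact ⟨⟨hn0v, hv0⟩, hn0⟩⟩
      rw [Finset.mem_filter, Nat.mem_divisors] at hnmem
      obtain ⟨⟨hnv, -⟩, hngood⟩ := hnmem
      have hmax : ∀ m, m ∣ v → Good m → (sg m : ℝ) / m ≤ (sg n : ℝ) / n := by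
        intro m hm hmg
        apply hnmax
        rw [Finset.mem_filter, Nat.mem_divisors]
        exact ⟨⟨hm, hv0⟩, hmg⟩
      have hn2 := good_two_le hngood
      have hn0' : n ≠ 0 := by omega
      have hnpos : (0 : ℝ) < n := by exact_mod_cast (show 0 < n by omega)
      obtain ⟨A, p, hA, hA4, hpp, hpn, hp8, hItv⟩ := id hngood
      obtain ⟨a, ha8, hpa, hAa, ha7⟩ := good_data hA4 hpp hpn hp8 hn0'
      have hpI : 2 ^ (8 * I) ≤ p := hp p hpp (hpn.trans hnv)
      have haI : (2 : ℝ) ^ (8 * I) ≤ a := le_trans (by exact_mod_cast hpI) hpa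
      have ha2 : 2 ≤ a := by
        refine le_trans ?_ haI
        calc (2 : ℝ) = 2 ^ 1 := by norm_num
          _ ≤ _ := pow_le_pow_right₀ (by norm_num) (by omega)
      -- prime sets
      set F := v.primeFactors with hF
      set Fn := n.primeFactors with hFn
      have hFnF : Fn ⊆ F := Nat.primeFactors_mono hnv hv0
      have hFp : ∀ q ∈ F, q.Prime := fun q hq => Nat.prime_of_mem_primeFactors hq
      have hFprod : ∏ q ∈ F, q = v := Nat.prod_primeFactors_of_squarefree hv
      have hFnprod : ∏ q ∈ Fn, q = n :=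
        Nat.prod_primeFactors_of_squarefree (hv.squarefree_of_dvd hnv)
      -- no extension by merging
      have hnomerge : ∀ m, 2 ≤ m → n.Coprime m → n * m ∣ v → ¬ Good (n * m) := by
        intro m hm hcop hdvd hgood
        have h1 := hmax _ hdvd hgood
        have hmpos : (0 : ℝ) < m := by exact_mod_cast (show 0 < m by omega)
        rw [sg_mul hcop] at h1
        push_cast at h1
        rw [div_le_div_iff₀ (by positivity) hnpos] at h1
        have h2 : (m : ℝ) < sg m := by
          have : m + 1 ≤ sg m := by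
            rw [sg_eq]
            have : 1 ≤ sp m := by
              unfold sp
              exact Finset.single_le_sum (f := fun x => x) (fun _ _ => Nat.zero_le _)
                (Nat.one_mem_properDivisors_iff_one_lt.mpr (by omega))
            omega
          exact_mod_cast this
        have h3 : (0 : ℝ) < sg n := by exact_mod_cast sg_pos hn0'
        have h4 : (sg n : ℝ) * (n * m) < sg n * sg m * n := by
          have : (n : ℝ) * m < sg m * n := by nlinarith
          nlinarith
        linarith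
      set UF := (F \ Fn).filter (fun q => ¬ (n + 2 * A * (q + 1) ≤ (q + 1) * sp n + 1)) with hUF
      set VF := (F \ Fn).filter (fun q => n + 2 * A * (q + 1) ≤ (q + 1) * sp n + 1) with hVF
      have hcopq : ∀ q ∈ F \ Fn, q.Coprime n := by
        intro q hq
        rw [Finset.mem_sdiff] at hq
        have hqp := hFp q hq.1
        rw [hqp.coprime_iff_not_dvd]
        intro h
        exact hq.2 (Nat.mem_primeFactors.mpr ⟨hqp, h, hn0'⟩)
      have hVsub : VF ⊆ F \ Fn := Finset.filter_subset _ _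
      have hUsub : UF ⊆ F \ Fn := Finset.filter_subset _ _
      have hVbig : ∀ q ∈ VF, a ^ 4 < (q : ℝ) := by
        intro q hq
        have hq1 := hVsub hq
        rw [hVF, Finset.mem_filter] at hq
        have hqp := hFp q (Finset.mem_sdiff.mp hq1).1
        have hcop := hcopq q hq1
        have h1 : ¬ ((q + 2) * A ≤ sp n + 1) := by
          intro h1
          have hgood := good_extend hA hA4 hpp hpn hp8 hItv hqp hcop h1 hq.2
          rw [mul_comm] at hgood
          refine hnomerge q hqp.two_le hcop.symm ?_ hgood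
          exact hcop.symm.mul_dvd_of_dvd_of_dvd hnv
            (Nat.dvd_of_mem_primeFactors (Finset.mem_sdiff.mp hq1).1)
        push Not at h1
        apply arith7 ha2 (by positivity) hAa ha7
        exact_mod_cast h1
      set u := ∏ q ∈ UF, q with hu
      set w := ∏ q ∈ VF, q with hw
      have hUFp : ∀ q ∈ UF, q.Prime := fun q hq => hFp q (Finset.mem_sdiff.mp (hUsub hq)).1
      have hVFp : ∀ q ∈ VF, q.Prime := fun q hq => hFp q (Finset.mem_sdiff.mp (hVsub hq)).1
      have hUV : u * w = ∏ q ∈ F \ Fn, q := by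
        rw [mul_comm, hu, hw, hUF, hVF]
        exact Finset.prod_filter_mul_prod_filter_not _ _ _
      have hvprod : n * (u * w) = v := by
        rw [hUV, ← hFprod, ← hFnprod, mul_comm]
        exact Finset.prod_sdiff hFnF
      have hcopn : ∀ S ⊆ F \ Fn, n.Coprime (∏ q ∈ S, q) := by
        intro S hS
        apply Nat.Coprime.prod_right
        intro q hq
        exact (hcopq q (hS hq)).symm
      have hcopuw : u.Coprime w := by
        apply Nat.Coprime.prod_left
        intro q hq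
        apply Nat.Coprime.prod_right
        intro q' hq'
        refine (Nat.coprime_primes (hUFp q hq) (hVFp q' hq')).mpr ?_
        rintro rfl
        rw [hUF, Finset.mem_filter] at hq
        rw [hVF, Finset.mem_filter] at hq'
        exact hq.2 hq'.2
      have hudvd : u ∣ v := ⟨n * w, by rw [← hvprod]; ring⟩
      have hwdvd : w ∣ v := ⟨n * u, by rw [← hvprod]; ring⟩
      have husq : Squarefree u := hv.squarefree_of_dvd hudvd
      have hwsq : Squarefree w := hv.squarefree_of_dvd hwdvd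
      -- u has no good divisor
      have hunogood : ∀ m, m ∣ u → ¬ Good m := by
        intro m hm hgood
        have hmv := hm.trans hudvd
        have h1 := hmax m hmv hgood
        obtain ⟨A', p', hA', hA4', hpp', hpn', hp8', hItv'⟩ := id hgood
        have hm2 := good_two_le hgood
        have hm0 : m ≠ 0 := by omega
        have hmpos : (0 : ℝ) < m := by exact_mod_cast (show 0 < m by omega)
        have hp'U : p' ∈ UF := by
          have : p' ∣ u := hpn'.trans hm
          obtain ⟨q, hq, hpq⟩ := (hpp'.prime.dvd_finsetProd_iff _).mp this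
          rw [(Nat.prime_dvd_prime_iff_eq hpp' (hUFp q hq)).mp hpq]
          exact hq
        have h2 : ¬ (n + 2 * A * (p' + 1) ≤ (p' + 1) * sp n + 1) := by
          rw [hUF, Finset.mem_filter] at hp'U
          exact hp'U.2
        push Not at h2
        have h3 : ((p' : ℝ) + 1) * sp n + 1 < a ^ 8 + 2 * A * ((p' : ℝ) + 1) := by
          rw [ha8]; exact_mod_cast h2
        have h4 : (n : ℝ) ≤ p' * sp n := by
          rw [div_le_div_iff₀ hmpos hnpos] at h1
          have e1 : (sg m : ℝ) = sp m + m := by exact_mod_cast @sg_eq m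
          have e2 : (sg n : ℝ) = sp n + n := by exact_mod_cast @sg_eq n
          rw [e1, e2] at h1
          have h5 : (sp m : ℝ) * n ≤ sp n * m := by nlinarith
          have h6 : (m : ℝ) ≤ p' * sp m := by exact_mod_cast sp_lb hm0 hpp' hpn'
          have hp'pos : (0 : ℝ) < p' := by exact_mod_cast hpp'.pos
          have h7 : (m : ℝ) * n ≤ (p' * sp n) * m := by
            calc (m : ℝ) * n ≤ (p' * sp m) * n := mul_le_mul_of_nonneg_right h6 hnpos.le
              _ = p' * (sp m * n) := by ring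
              _ ≤ p' * (sp n * m) := mul_le_mul_of_nonneg_left h5 hp'pos.le
              _ = _ := by ring
          have h8 : (m : ℝ) * n ≤ m * (p' * sp n) := by linarith
          exact le_of_mul_le_mul_left h8 hmpos
        refine arith6 (Q := (p' : ℝ) + 1) ha2 (by linarith [(Nat.cast_nonneg p' : (0 : ℝ) ≤ p')]) hAa ha7 h3 ?_
        rw [ha8]
        simpa using h4
      have hsgu := no_good hI husq (fun q hq hqu => hp q hq (hqu.trans hudvd)) hunogood
      -- w
      have hwgood : ∀ m, m ∣ w → Good m → (sp m : ℝ) ≤ (3 * (1 / 2) ^ (48 * I)) * m := by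
        intro m hm hgood
        have hmv := hm.trans hwdvd
        obtain ⟨A', p', hA', hA4', hpp', hpn', hp8', hItv'⟩ := id hgood
        have hm2 := good_two_le hgood
        have hm0 : m ≠ 0 := by omega
        have hmpos : (0 : ℝ) < m := by exact_mod_cast (show 0 < m by omega)
        obtain ⟨b, hb8, hpb, hAb, hb7⟩ := good_data hA4' hpp' hpn' hp8' hm0
        have hp'V : p' ∈ VF := by
          have : p' ∣ w := hpn'.trans hm
          obtain ⟨q, hq, hpq⟩ := (hpp'.prime.dvd_finsetProd_iff _).mp this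
          rw [(Nat.prime_dvd_prime_iff_eq hpp' (hVFp q hq)).mp hpq]
          exact hq
        have hab : a ^ 4 ≤ b := (hVbig p' hp'V).le.trans hpb
        have hcop : n.Coprime m := (hcopn VF hVsub).coprime_dvd_right hm
        have hnm : n * m ∣ v := hcop.mul_dvd_of_dvd_of_dvd hnv hmv
        have hng := hnomerge m hm2 hcop hnm
        have hsgn : (sg n : ℝ) ≤ a ^ 16 := by
          have : (sg n : ℝ) ≤ (n : ℝ) * n := by exact_mod_cast sg_le_sq n
          rw [← ha8] at this
          calc (sg n : ℝ) ≤ a ^ 8 * a ^ 8 := this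
            _ = _ := by ring
        have hsgn2 : a ^ 8 ≤ (sg n : ℝ) := by
          rw [ha8]
          have : n ≤ sg n := by rw [sg_eq]; omega
          exact_mod_cast this
        have hM1 : (sg n + 1) * A' ≤ sp m + 1 := by
          have := arithM1 (A' := (A' : ℝ)) (S := (sp m : ℝ)) ha2 hab hsgn hb7 (by positivity) hAb
          exact_mod_cast this
        have h2A : 2 * A ≤ sp n := by
          have : (2 : ℝ) * A ≤ sp n := by
            have e : a ^ 7 = a ^ 2 * (a * a ^ 4) := by ring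
            have h7 : (2 : ℝ) ^ 4 ≤ a ^ 4 := pow_le_pow_left₀ (by norm_num) ha2 4
            have h8 : 2 ≤ a * a ^ 4 := by nlinarith
            have h9 : a ^ 2 * 2 ≤ a ^ 7 := by
              rw [e]; exact mul_le_mul_of_nonneg_left h8 (by positivity)
            linarith
          exact_mod_cast this
        have hM2 : ¬ (m * A + 2 * A' * sg n ≤ sg n * sp m + 1) := by
          intro hM2
          exact hng (good_merge hA hA4 hpp hpn hp8 hItv hA' hA4' hpp' hpn' hp8' hItv' h2A hcop hM1 hM2)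
        push Not at hM2
        have h3 : (sg n : ℝ) * sp m + 1 < b ^ 8 * A + 2 * A' * sg n := by
          rw [hb8]; exact_mod_cast hM2
        have h4 := arith8 ha2 hab hsgn2 hb7 hAa hAb h3
        rw [hb8] at h4
        -- a^6 >= 2^(48 I)
        have h5 : (2 : ℝ) ^ (48 * I) ≤ a ^ 6 := by
          calc (2 : ℝ) ^ (48 * I) = (2 ^ (8 * I)) ^ 6 := by rw [← pow_mul]; congr 1; ring
            _ ≤ a ^ 6 := pow_le_pow_left₀ (by positivity) haI 6
        have h6 : (2 : ℝ) ^ (48 * I) * sp m ≤ 3 * m :=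
          (mul_le_mul_of_nonneg_right h5 (by positivity)).trans h4
        rw [one_div_pow]
        have h7 : (0 : ℝ) < 2 ^ (48 * I) := by positivity
        rw [show 3 * (1 / (2 : ℝ) ^ (48 * I)) * m = (3 * m) / 2 ^ (48 * I) by ring]
        rw [le_div_iff₀ h7]
        linarith
      have hw_le : w ≤ N := by
        have hwpos : 0 < w := Nat.pos_of_ne_zero hwsq.ne_zero
        have hupos : 0 < u := Nat.pos_of_ne_zero husq.ne_zero
        have h1 : 2 * w ≤ v := by
          rw [← hvprod]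
          calc 2 * w ≤ n * w := Nat.mul_le_mul_right _ hn2
            _ ≤ n * (u * w) := Nat.mul_le_mul_left _ (Nat.le_mul_of_pos_left _ hupos)
        omega
      have hih := ih w (4 * I) (3 * (1 / 2) ^ (48 * I)) hw_le (by omega) hwsq (by
          intro q hq hqw
          have hqV : q ∈ VF := by
            obtain ⟨r, hr, hqr⟩ := (hq.prime.dvd_finsetProd_iff _).mp hqw
            rw [(Nat.prime_dvd_prime_iff_eq hq (hVFp r hr)).mp hqr]
            exact hr
          have h1 := hVbig q hqV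
          have h2 : (2 : ℝ) ^ (8 * (4 * I)) ≤ a ^ 4 := by
            calc (2 : ℝ) ^ (8 * (4 * I)) = (2 ^ (8 * I)) ^ 4 := by rw [← pow_mul]; congr 1; ring
              _ ≤ a ^ 4 := pow_le_pow_left₀ (by positivity) haI 4
          have h3 : (2 : ℝ) ^ (8 * (4 * I)) ≤ q := h2.trans h1.le
          exact_mod_cast h3) (by positivity) hwgood
      -- combine
      have hsgn : (sg n : ℝ) ≤ (1 + τ) * n := by
        have e2 : (sg n : ℝ) = sp n + n := by exact_mod_cast @sg_eq n
        rw [e2]
        have := hg n hnv hngood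
        linarith
      have hsgv : (sg v : ℝ) = sg n * (sg u * sg w) := by
        rw [← hvprod, sg_mul, sg_mul hcopuw]
        · push_cast; ring
        · rw [hUV]; exact hcopn _ subset_rfl
      have hvcast : (v : ℝ) = n * (u * w) := by rw [← hvprod]; push_cast; ring
      rw [hsgv, hvcast]
      have hu0 : (0 : ℝ) ≤ sg u := by positivity
      have hw0 : (0 : ℝ) ≤ sg w := by positivity
      calc (sg n : ℝ) * (sg u * sg w)
          ≤ ((1 + τ) * n) * ((Real.exp (2 * (1 / 2) ^ I) * u) *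
            ((1 + 3 * (1 / 2) ^ (48 * I)) * Real.exp (4 * (1 / 2) ^ (4 * I)) * w)) := by
            apply mul_le_mul hsgn _ (by positivity) (by positivity)
            exact mul_le_mul hsgu hih (by positivity) (by positivity)
        _ = (Real.exp (2 * (1 / 2) ^ I) * ((1 + 3 * (1 / 2) ^ (48 * I)) *
            Real.exp (4 * (1 / 2) ^ (4 * I)))) * ((1 + τ) * (n * (u * w))) := by ring
        _ ≤ Real.exp (4 * (1 / 2) ^ I) * ((1 + τ) * (n * (u * w))) := by
            apply mul_le_mul_of_nonneg_right (exp_combine hI)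
            positivity
        _ = _ := by ring

end Pool.Agent.W55.Weird
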