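import Pool.Agent.W55.Weird.Nucleus

set_option autoImplicit false

namespace Pool.Agent.W55.Weird

open Finset

theorem nucleus {i : ℕ} {P : Finset ℕ} (hi : 40 ≤ i)
    (hP : ∀ p ∈ P, p.Prime ∧ 2 ^ (8 * i) ≤ p ∧ p ≤ 2 ^ (8 * i + 8))
    (hc : P.card = 2 ^ (7 * i)) : Good (∏ p ∈ P, p) := by
  classical
  have hPp : ∀ p ∈ P, p.Prime := fun p hp => (hP p hp).1
  set n := ∏ p ∈ P, p with hn
  have hnlb : 2 ^ (8 * i * 2 ^ (7 * i)) ≤ n := lb hP subset_rfl hc
  have hnpos : 0 < n := Finset.prod_pos (fun p hp => (hPp p hp).pos)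
  -- D3
  set D3 := (P.powersetCard 3).image (fun S => ∏ p ∈ S, p) with hD3
  have hinj : ∀ k, Set.InjOn (fun S : Finset ℕ => ∏ p ∈ S, p) (P.powersetCard k : Finset (Finset ℕ)) := by
    intro k S hS S' hS' h
    rw [Finset.mem_coe, Finset.mem_powersetCard] at hS hS'
    exact prod_inj hPp hS.1 hS'.1 h
  have hD3c : 2 ^ (21 * i - 6) ≤ D3.card := by
    rw [hD3, Finset.card_image_of_injOn (hinj 3), Finset.card_powersetCard, hc]
    have := choose_three_lb (7 * i) _ (by omega) le_rfl
    have e : 3 * (7 * i) - 6 = 21 * i - 6 := by omega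
    rwa [e] at this
  have hD3mem : ∀ x ∈ D3, ∃ S ⊆ P, S.card = 3 ∧ x = ∏ p ∈ S, p := by
    intro x hx
    rw [hD3, Finset.mem_image] at hx
    obtain ⟨S, hS, rfl⟩ := hx
    rw [Finset.mem_powersetCard] at hS
    exact ⟨S, hS.1, hS.2, rfl⟩
  have hD3bd : ∀ x ∈ D3, 2 ^ (24 * i) ≤ x ∧ x ≤ 2 ^ (24 * i + 24) := by
    intro x hx
    obtain ⟨S, hS, hSc, rfl⟩ := hD3mem x hx
    have h1 := lb hP hS hSc
    have h2 := ub hP hS hSc
    have e1 : 8 * i * 3 = 24 * i := by ring
    have e2 : (8 * i + 8) * 3 = 24 * i + 24 := by ring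
    rw [e1] at h1
    rw [e2] at h2
    exact ⟨h1, h2⟩
  -- pairs
  obtain ⟨M, V0, hM1, hMH, hV0D, hV0D', hV0disj, hV0c⟩ := pairs D3 (2 ^ (24 * i + 25)) (2 ^ (3 * i + 33))
    Nat.one_le_two_pow (by
      intro x hx
      calc x ≤ 2 ^ (24 * i + 24) := (hD3bd x hx).2
        _ < _ := Nat.pow_lt_pow_right (by norm_num) (by omega)) (by
      have e : 24 * i + 25 = (21 * i - 8) + (3 * i + 33) := by omega
      rw [e, pow_add, Nat.mul_div_cancel _ (by positivity)]
      have h1 : 2 ^ (21 * i - 6) = 4 * 2 ^ (21 * i - 8) := by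
        rw [show (4 : ℕ) = 2 ^ 2 by norm_num, ← pow_add]; congr 1; omega
      have h2 : 1 ≤ 2 ^ (21 * i - 8) := Nat.one_le_two_pow
      omega)
  have hV0k : 2 ^ (16 * i + 17) ≤ V0.card := by
    have h1 : 2 ^ (21 * i - 6) ≤ 4 * 2 ^ (3 * i + 33) * V0.card := hD3c.trans hV0c
    have h2 : 2 ^ (21 * i - 6) = (4 * 2 ^ (3 * i + 33)) * 2 ^ (18 * i - 41) := by
      rw [show (4 : ℕ) = 2 ^ 2 by norm_num, ← pow_add, ← pow_add]; congr 1; omega
    rw [h2] at h1
    have h3 := Nat.le_of_mul_le_mul_left h1 (by positivity)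
    exact (Nat.pow_le_pow_right (by norm_num) (by omega)).trans h3
  obtain ⟨V, hVV0, hVc⟩ := Finset.exists_subset_card_eq hV0k
  have hVD : V ⊆ D3 := hVV0.trans hV0D
  have hVD' : V.image (· + M) ⊆ D3 := (Finset.image_subset_image hVV0).trans hV0D'
  have hVdisj : Disjoint V (V.image (· + M)) :=
    Finset.disjoint_of_subset_left hVV0
      (Finset.disjoint_of_subset_right (Finset.image_subset_image hVV0) hV0disj)
  -- R
  obtain ⟨R, hRP, hRc⟩ := Finset.exists_subset_card_eq (show M - 1 ≤ P.card by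
    rw [hc]
    have : 2 ^ (3 * i + 33) ≤ 2 ^ (7 * i) := Nat.pow_le_pow_right (by norm_num) (by omega)
    omega)
  have hRcop : ∀ a ∈ R, a.Coprime M := by
    intro a ha
    obtain ⟨hap, ha1, ha2⟩ := hP a (hRP ha)
    rw [hap.coprime_iff_not_dvd]
    intro hdvd
    have h1 := Nat.le_of_dvd (by omega) hdvd
    have : 2 ^ (3 * i + 33) ≤ 2 ^ (8 * i) := Nat.pow_le_pow_right (by norm_num) (by omega)
    omega
  have hPD3 : Disjoint P D3 := by
    rw [Finset.disjoint_left]
    intro x hx hx'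
    have h1 := (hP x hx).2.2
    have h2 := (hD3bd x hx').1
    have : 2 ^ (8 * i + 8) < 2 ^ (24 * i) := Nat.pow_lt_pow_right (by norm_num) (by omega)
    omega
  have hRdisj : Disjoint R (V ∪ V.image (· + M)) :=
    Finset.disjoint_of_subset_left hRP
      (Finset.disjoint_of_subset_right (Finset.union_subset hVD hVD') hPD3)
  set U := (V ∪ V.image (· + M)) ∪ R with hU
  have hUsub : U ⊆ D3 ∪ P := by
    rw [hU]
    exact Finset.union_subset_union (Finset.union_subset hVD hVD') hRP
  have hint := structure_interval hM1 R V hRcop (by omega) hVdisj hRdisj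
  rw [← hU] at hint
  -- card of U
  have hUc : U.card ≤ 2 ^ (16 * i + 19) := by
    have h1 : U.card ≤ V.card + V.card + R.card := by
      rw [hU]
      calc _ ≤ (V ∪ V.image (· + M)).card + R.card := Finset.card_union_le _ _
        _ ≤ (V.card + (V.image (· + M)).card) + R.card := by
            have := Finset.card_union_le V (V.image (· + M)); omega
        _ ≤ _ := by
            have := Finset.card_image_le (s := V) (f := (· + M)); omega
    have h2 : R.card ≤ 2 ^ (16 * i + 17) := by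
      rw [hRc]
      have : 2 ^ (3 * i + 33) ≤ 2 ^ (16 * i + 17) := Nat.pow_le_pow_right (by norm_num) (by omega)
      omega
    have h3 : 2 ^ (16 * i + 19) = 4 * 2 ^ (16 * i + 17) := by
      rw [show (4 : ℕ) = 2 ^ 2 by norm_num, ← pow_add]; congr 1; omega
    rw [hVc] at h1
    omega
  have hUbd : ∀ x ∈ U, x ≤ 2 ^ (24 * i + 24) := by
    intro x hx
    have := hUsub hx
    rw [Finset.mem_union] at this
    rcases this with h | h
    · exact (hD3bd x h).2
    · exact (hP x h).2.2.trans (Nat.pow_le_pow_right (by norm_num) (by omega))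
  have hUsum : ∑ x ∈ U, x ≤ 2 ^ (40 * i + 43) := by
    calc ∑ x ∈ U, x ≤ U.card • 2 ^ (24 * i + 24) := Finset.sum_le_card_nsmul _ _ _ hUbd
      _ ≤ 2 ^ (16 * i + 19) * 2 ^ (24 * i + 24) := by
          rw [smul_eq_mul]; exact Nat.mul_le_mul_right _ hUc
      _ = _ := by rw [← pow_add]; congr 1; omega
  have hsubD : ∀ F ⊆ P, F ≠ P → ∏ p ∈ F, p ∈ n.properDivisors := by
    intro F hF hFP
    rw [Nat.mem_properDivisors]
    have hdvd : ∏ p ∈ F, p ∣ n := Finset.prod_dvd_prod_of_subset _ _ _ hF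
    refine ⟨hdvd, lt_of_le_of_ne (Nat.le_of_dvd hnpos hdvd) ?_⟩
    intro h
    exact hFP (prod_inj hPp hF subset_rfl h)
  have hPbig : 42 < P.card := by
    rw [hc]
    calc 42 < 2 ^ 7 := by norm_num
      _ ≤ 2 ^ (7 * i) := Nat.pow_le_pow_right (by norm_num) (by omega)
  have hUpd : U ⊆ n.properDivisors := by
    intro x hx
    have := hUsub hx
    rw [Finset.mem_union] at this
    rcases this with h | h
    · obtain ⟨S, hS, hSc, rfl⟩ := hD3mem x h
      exact hsubD S hS (by intro h; rw [h] at hSc; omega)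
    · have := hsubD {x} (by simpa using h) (by intro h'; rw [← h'] at hPbig; simp at hPbig)
      simpa using this
  set B := n.properDivisors \ U with hBdef
  have hUB : U ∪ B = n.properDivisors := Finset.union_sdiff_of_subset hUpd
  have hUBd : Disjoint U B := Finset.disjoint_sdiff
  have hBmem : ∀ F ⊆ P, F ≠ P → F.card ≠ 1 → F.card ≠ 3 → ∏ p ∈ F, p ∈ B := by
    intro F hF hFP h1 h3
    rw [hBdef, Finset.mem_sdiff]
    refine ⟨hsubD F hF hFP, ?_⟩
    intro hx
    have := hUsub hx
    rw [Finset.mem_union] at this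
    rcases this with h | h
    · obtain ⟨S, hS, hSc, hSe⟩ := hD3mem _ h
      have := prod_inj hPp hF hS hSe
      rw [this] at h3
      exact h3 hSc
    · have hh : ∏ p ∈ F, p = ∏ p ∈ ({∏ p ∈ F, p} : Finset ℕ), p := by simp
      have := prod_inj hPp hF (by simpa using h) hh
      apply h1
      rw [this]
      simp
  -- the interval length
  have hlen : ∑ x ∈ V, x + ∑ x ∈ R, x + 2 ^ (16 * i + 16) ≤ ∑ x ∈ V, x + V.card * M := by
    have h1 : ∑ x ∈ R, x ≤ R.card • 2 ^ (8 * i + 8) :=
      Finset.sum_le_card_nsmul _ _ _ (fun x hx => (hP x (hRP hx)).2.2)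
    rw [smul_eq_mul, hRc] at h1
    rw [hVc]
    have h2 : (M - 1) * 2 ^ (8 * i + 8) ≤ M * 2 ^ (16 * i + 16) := by
      apply Nat.mul_le_mul (by omega)
      exact Nat.pow_le_pow_right (by norm_num) (by omega)
    have h3 : 2 ^ (16 * i + 17) * M = M * 2 ^ (16 * i + 16) + M * 2 ^ (16 * i + 16) := by
      have : 2 ^ (16 * i + 17) = 2 * 2 ^ (16 * i + 16) := by rw [← pow_succ']
      rw [this]; ring
    have h4 : 1 * 2 ^ (16 * i + 16) ≤ M * 2 ^ (16 * i + 16) := Nat.mul_le_mul_right _ hM1
    omega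
  set lo := ∑ x ∈ V, x + ∑ x ∈ R, x with hlo
  set hi' := ∑ x ∈ V, x + V.card * M with hhi'
  have hgreedy := greedy U B hUBd lo hi' (le_trans (Nat.le_add_right _ _) hlen) hint (by
    intro d hd
    have hdpd : d ∈ n.properDivisors := (Finset.mem_sdiff.mp hd).1
    rw [Nat.mem_properDivisors] at hdpd
    obtain ⟨S, hS, rfl⟩ := dvd_prod_iff hPp hdpd.1
    have hSP : S ≠ P := by
      rintro rfl
      exact lt_irrefl _ hdpd.2
    by_cases h2 : S.card ≤ 2
    · have h3 : ∏ p ∈ S, p ≤ 2 ^ (16 * i + 16) := by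
        calc _ ≤ 2 ^ ((8 * i + 8) * S.card) := ub hP hS rfl
          _ ≤ _ := Nat.pow_le_pow_right (by norm_num) (by nlinarith)
      omega
    · by_cases h3 : S.card = 3
      · -- use D2
        have hd1 := lb hP hS h3
        have hd2 := ub hP hS h3
        have key : ∑ q ∈ P.powersetCard 2, ∏ p ∈ q, p ≤ ∑ e ∈ B.filter (· < ∏ p ∈ S, p), e := by
          apply sum_lb _ _ (hinj 2)
          intro q hq
          rw [Finset.mem_powersetCard] at hq
          rw [Finset.mem_filter]
          refine ⟨hBmem q hq.1 (by intro h; rw [h] at hq; omega) (by omega) (by omega), ?_⟩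
          calc ∏ p ∈ q, p ≤ 2 ^ ((8 * i + 8) * 2) := ub hP hq.1 hq.2
            _ < 2 ^ (8 * i * 3) := Nat.pow_lt_pow_right (by norm_num) (by omega)
            _ ≤ _ := hd1
        have h4 : (P.powersetCard 2).card * 2 ^ (8 * i * 2) ≤ ∑ q ∈ P.powersetCard 2, ∏ p ∈ q, p := by
          have := Finset.card_nsmul_le_sum (P.powersetCard 2) (fun q => ∏ p ∈ q, p) (2 ^ (8 * i * 2))
            (fun q hq => by
              rw [Finset.mem_powersetCard] at hq
              exact lb hP hq.1 hq.2)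
          simpa using this
        rw [Finset.card_powersetCard, hc] at h4
        have h5 := choose_two_lb (7 * i) _ (by omega) le_rfl
        have h6 : 2 ^ ((8 * i + 8) * 3) ≤ 2 ^ (2 * (7 * i) - 3) * 2 ^ (8 * i * 2) := by
          rw [← pow_add]
          exact Nat.pow_le_pow_right (by norm_num) (by omega)
        have h7 := Nat.mul_le_mul_right (2 ^ (8 * i * 2)) h5
        omega
      · by_cases h4 : S.card = 4
        · -- use D3 \ U
          have hd1 := lb hP hS h4
          have hd2 := ub hP hS h4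
          have hsub : D3 \ U ⊆ B.filter (· < ∏ p ∈ S, p) := by
            intro x hx
            rw [Finset.mem_sdiff] at hx
            rw [Finset.mem_filter]
            have hxb := (hD3bd x hx.1).2
            obtain ⟨F, hF, hFc, rfl⟩ := hD3mem x hx.1
            constructor
            · rw [hBdef, Finset.mem_sdiff]
              exact ⟨hsubD F hF (by intro h; rw [h] at hFc; omega), hx.2⟩
            · calc _ ≤ 2 ^ (24 * i + 24) := hxb
                _ < 2 ^ (8 * i * 4) := Nat.pow_lt_pow_right (by norm_num) (by omega)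
                _ ≤ _ := hd1
          have h5 : ∑ e ∈ D3 \ U, e ≤ ∑ e ∈ B.filter (· < ∏ p ∈ S, p), e :=
            Finset.sum_le_sum_of_subset hsub
          have h6 : (D3 \ U).card • 2 ^ (24 * i) ≤ ∑ e ∈ D3 \ U, e :=
            Finset.card_nsmul_le_sum _ _ _ (fun x hx => (hD3bd x (Finset.mem_sdiff.mp hx).1).1)
          rw [smul_eq_mul] at h6
          have h7 : 2 ^ (21 * i - 7) ≤ (D3 \ U).card := by
            have h8 := Finset.le_card_sdiff U D3
            have h9 : 2 ^ (21 * i - 6) = 2 * 2 ^ (21 * i - 7) := by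
              rw [← pow_succ']; congr 1; omega
            have h10 : 2 ^ (16 * i + 19) ≤ 2 ^ (21 * i - 7) :=
              Nat.pow_le_pow_right (by norm_num) (by omega)
            omega
          have h8 : 2 ^ ((8 * i + 8) * 4) ≤ 2 ^ (21 * i - 7) * 2 ^ (24 * i) := by
            rw [← pow_add]
            exact Nat.pow_le_pow_right (by norm_num) (by omega)
          have h9 := Nat.mul_le_mul_right (2 ^ (24 * i)) h7
          omega
        · have h5 : 5 ≤ S.card := by omega
          by_cases h6 : 2 * S.card ≤ P.card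
          · have := caseA hi hP hc B hBmem S hS h5 h6
            omega
          · have := caseB hi hP hc B hBmem S hS h5 hSP (by omega)
            omega)
  rw [hUB] at hgreedy
  have hsp : sp n = ∑ x ∈ U, x + ∑ x ∈ B, x := by
    unfold sp
    rw [← hUB, Finset.sum_union hUBd]
  -- choose a prime
  obtain ⟨p, hp⟩ : P.Nonempty := by
    rw [← Finset.card_pos]; omega
  obtain ⟨v, hv⟩ : V.Nonempty := by
    rw [← Finset.card_pos, hVc]; positivity
  have hloU : lo ≤ ∑ x ∈ U, x := by
    rw [hlo, hU, Finset.sum_union hRdisj.symm, Finset.sum_union hVdisj]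
    omega
  refine ⟨∑ x ∈ U, x, p, ?_, ?_, hPp p hp, Finset.dvd_prod_of_mem _ hp, ?_, ?_⟩
  · have h1 : v ≤ ∑ x ∈ U, x := by
      have hvU : v ∈ U := by
        rw [hU]; simp [hv]
      exact Finset.single_le_sum (f := fun x => x) (fun _ _ => Nat.zero_le _) hvU
    have h2 := (hD3bd v (hVD hv)).1
    have h3 : 1 ≤ 2 ^ (24 * i) := Nat.one_le_two_pow
    omega
  · calc (∑ x ∈ U, x) ^ 4 ≤ (2 ^ (40 * i + 43)) ^ 4 := Nat.pow_le_pow_left hUsum 4
      _ = 2 ^ (160 * i + 172) := by rw [← pow_mul]; congr 1; ring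
      _ ≤ 2 ^ (8 * i * 42) := Nat.pow_le_pow_right (by norm_num) (by omega)
      _ ≤ 2 ^ (8 * i * 2 ^ (7 * i)) := by
          apply Nat.pow_le_pow_right (by norm_num)
          apply Nat.mul_le_mul_left
          rw [← hc]; omega
      _ ≤ n := hnlb
  · calc p ^ 8 ≤ (2 ^ (8 * i + 8)) ^ 8 := Nat.pow_le_pow_left (hP p hp).2.2 8
      _ = 2 ^ (64 * i + 64) := by rw [← pow_mul]; congr 1; ring
      _ ≤ 2 ^ (8 * i * 42) := Nat.pow_le_pow_right (by norm_num) (by omega)
      _ ≤ 2 ^ (8 * i * 2 ^ (7 * i)) := by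
          apply Nat.pow_le_pow_right (by norm_num)
          apply Nat.mul_le_mul_left
          rw [← hc]; omega
      _ ≤ n := hnlb
  · intro x hx1 hx2
    apply hgreedy x (by omega)
    rw [hsp] at hx2
    omega

end Pool.Agent.W55.Weird
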