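import Pool.Agent.W55.Weird.Merge
import Pool.Agent.W55.Weird.Nucleus2

set_option autoImplicit false

namespace Pool.Agent.W55.Weird

open Finset

lemma sg_pos {n : ℕ} (hn : n ≠ 0) : 0 < sg n := by
  rw [sg_eq]; omega

lemma sg_le_sq (n : ℕ) : sg n ≤ n * n := by
  unfold sg
  calc ∑ d ∈ n.divisors, d ≤ n.divisors.card • n :=
        Finset.sum_le_card_nsmul _ _ _ (fun d hd => Nat.divisor_le hd)
    _ ≤ n * n := by
        rw [smul_eq_mul]
        exact Nat.mul_le_mul_right _ (Nat.card_divisors_le_self n)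

lemma sp_lb {n p : ℕ} (hn : n ≠ 0) (hp : p.Prime) (hpn : p ∣ n) : n ≤ p * sp n := by
  obtain ⟨m, rfl⟩ := hpn
  have hm : m ≠ 0 := by rintro rfl; simp at hn
  have hmem : m ∈ (p * m).properDivisors := by
    rw [Nat.mem_properDivisors]
    refine ⟨Dvd.intro_left p rfl, ?_⟩
    have := hp.two_le
    nlinarith [Nat.pos_of_ne_zero hm]
  have : m ≤ sp (p * m) := by
    unfold sp
    exact Finset.single_le_sum (f := fun x => x) (fun _ _ => Nat.zero_le _) hmem
  exact Nat.mul_le_mul_left _ this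

/-- sum of divisors of a squarefree product, real form -/
lemma sg_prod {P : Finset ℕ} (hP : ∀ p ∈ P, p.Prime) :
    (sg (∏ p ∈ P, p) : ℝ) = (∏ p ∈ P, (1 + 1 / (p : ℝ))) * ((∏ p ∈ P, p : ℕ) : ℝ) := by
  classical
  induction P using Finset.induction_on with
  | empty => simp [sg]
  | insert a P ha ih =>
    have ha' : a.Prime := hP a (Finset.mem_insert_self _ _)
    have hP' : ∀ p ∈ P, p.Prime := fun p hp => hP p (Finset.mem_insert_of_mem hp)
    rw [Finset.prod_insert ha, Finset.prod_insert ha]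
    have hcop : a.Coprime (∏ p ∈ P, p) := by
      apply Nat.Coprime.prod_right
      intro p hp
      exact (Nat.coprime_primes ha' (hP' p hp)).mpr (by rintro rfl; exact ha hp)
    rw [sg_mul hcop]
    push_cast
    rw [ih hP']
    have : (sg a : ℝ) = (1 + 1 / (a : ℝ)) * a := by
      have h1 : sg a = 1 + a := by
        unfold sg
        rw [ha'.divisors, Finset.sum_pair (by exact ha'.one_lt.ne)]
      rw [h1]
      have : (a : ℝ) ≠ 0 := by exact_mod_cast ha'.ne_zero
      push_cast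
      field_simp
      ring
    rw [this]
    push_cast
    ring

lemma good_two_le {n : ℕ} (h : Good n) : 2 ≤ n := by
  obtain ⟨A, p, hA, hA4, hp, hpn, hp8, hI⟩ := h
  have := hp.two_le
  have h2 : 2 ^ 8 ≤ p ^ 8 := Nat.pow_le_pow_left this 8
  omega

/-- if there are no good divisors, the abundancy is close to one. -/
lemma no_good {v I : ℕ} (hI : 40 ≤ I) (hv : Squarefree v)
    (hp : ∀ p, p.Prime → p ∣ v → 2 ^ (8 * I) ≤ p) (hg : ∀ n, n ∣ v → ¬ Good n) :
    (sg v : ℝ) ≤ Real.exp (2 * (1 / 2) ^ I) * v := by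
  classical
  set F := v.primeFactors with hF
  have hFp : ∀ p ∈ F, p.Prime := fun p hp => Nat.prime_of_mem_primeFactors hp
  have hFv : ∏ p ∈ F, p = v := Nat.prod_primeFactors_of_squarefree hv
  have hFd : ∀ p ∈ F, p ∣ v := fun p hp => Nat.dvd_of_mem_primeFactors hp
  have hb : ∀ p ∈ F, 2 ^ (8 * I) ≤ p := fun p hp' => hp p (hFp p hp') (hFd p hp')
  have hsum : ∑ p ∈ F, 1 / (p : ℝ) ≤ 2 * (1 / 2) ^ I := by
    -- group
    set K := v + 1 with hK
    have hmaps : ∀ p ∈ F, Nat.log 2 p / 8 ∈ Finset.Ico I (I + K) := by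
      intro p hp'
      rw [Finset.mem_Ico]
      constructor
      · rw [Nat.le_div_iff_mul_le (by norm_num)]
        have := Nat.log_mono_right (b := 2) (hb p hp')
        rw [Nat.log_pow (by norm_num)] at this
        omega
      · have h1 : Nat.log 2 p ≤ p := Nat.log_le_self _ _
        have h2 : p ≤ v := Nat.le_of_dvd (Nat.pos_of_ne_zero hv.ne_zero) (hFd p hp')
        have h3 : Nat.log 2 p / 8 ≤ Nat.log 2 p := Nat.div_le_self _ _
        omega
    rw [← Finset.sum_fiberwise_of_maps_to hmaps]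
    have hfib : ∀ i ∈ Finset.Ico I (I + K),
        ∑ p ∈ F with Nat.log 2 p / 8 = i, 1 / (p : ℝ) ≤ (1 / 2) ^ i := by
      intro i hi
      rw [Finset.mem_Ico] at hi
      set G := F.filter (fun p => Nat.log 2 p / 8 = i) with hG
      have hGb : ∀ p ∈ G, p.Prime ∧ 2 ^ (8 * i) ≤ p ∧ p ≤ 2 ^ (8 * i + 8) := by
        intro p hp'
        rw [hG, Finset.mem_filter] at hp'
        refine ⟨hFp p hp'.1, ?_, ?_⟩
        · have h1 : 8 * i ≤ Nat.log 2 p := by omega
          exact (Nat.pow_le_pow_right (by norm_num) h1).trans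
            (Nat.pow_log_le_self 2 (hFp p hp'.1).ne_zero)
        · have h1 : Nat.log 2 p < 8 * i + 8 := by omega
          exact (Nat.lt_pow_of_log_lt (by norm_num) h1).le
      have hGc : G.card < 2 ^ (7 * i) := by
        by_contra hcon
        push Not at hcon
        obtain ⟨G', hG', hG'c⟩ := Finset.exists_subset_card_eq hcon
        have hgood := nucleus (i := i) (P := G') (by omega) (fun p hp' => hGb p (hG' hp')) hG'c
        apply hg _ _ hgood
        have : G' ⊆ F := hG'.trans (Finset.filter_subset _ _)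
        calc ∏ p ∈ G', p ∣ ∏ p ∈ F, p := Finset.prod_dvd_prod_of_subset _ _ _ this
          _ = v := hFv
      calc ∑ p ∈ G, 1 / (p : ℝ) ≤ G.card • (1 / (2 : ℝ) ^ (8 * i)) := by
            apply Finset.sum_le_card_nsmul
            intro p hp'
            apply one_div_le_one_div_of_le (by positivity)
            exact_mod_cast (hGb p hp').2.1
        _ ≤ (2 : ℝ) ^ (7 * i) * (1 / (2 : ℝ) ^ (8 * i)) := by
            rw [nsmul_eq_mul]
            apply mul_le_mul_of_nonneg_right _ (by positivity)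
            exact_mod_cast hGc.le
        _ = (1 / 2) ^ i := by
            have : (2 : ℝ) ^ (8 * i) = 2 ^ (7 * i) * 2 ^ i := by rw [← pow_add]; congr 1; omega
            rw [this, one_div_pow]
            field_simp
    refine (Finset.sum_le_sum hfib).trans ?_
    -- geometric
    rw [Finset.sum_Ico_eq_sum_range]
    have h1 : ∀ K : ℕ, ∑ j ∈ Finset.range K, ((1 : ℝ) / 2) ^ (I + j) =
        2 * (1 / 2) ^ I * (1 - (1 / 2) ^ K) := by
      intro K
      induction K with
      | zero => simp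
      | succ K ih =>
        rw [Finset.sum_range_succ, ih, pow_add, pow_succ]
        ring
    have h2 : I + K - I = K := by omega
    rw [h2, h1]
    have h3 : (0 : ℝ) ≤ (1 / 2) ^ K := by positivity
    have h4 : (0 : ℝ) ≤ 2 * (1 / 2) ^ I := by positivity
    nlinarith
  have h1 := sg_prod hFp
  rw [hFv] at h1
  rw [h1]
  apply mul_le_mul_of_nonneg_right _ (by positivity)
  calc ∏ p ∈ F, (1 + 1 / (p : ℝ)) ≤ ∏ p ∈ F, Real.exp (1 / (p : ℝ)) := by
        apply Finset.prod_le_prod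
        · intro p _; positivity
        · intro p _
          rw [add_comm]
          exact Real.add_one_le_exp _
    _ = Real.exp (∑ p ∈ F, 1 / (p : ℝ)) := by rw [Real.exp_sum]
    _ ≤ _ := Real.exp_le_exp.mpr hsum

/-- real eighth root of `n` and the basic bounds for a good number -/
lemma good_data {n A p : ℕ} (hA4 : A ^ 4 ≤ n) (hp : p.Prime) (hpn : p ∣ n)
    (hp8 : p ^ 8 ≤ n) (hn : n ≠ 0) :
    ∃ a : ℝ, a ^ 8 = n ∧ (p : ℝ) ≤ a ∧ (A : ℝ) ≤ a ^ 2 ∧ a ^ 7 ≤ (sp n : ℝ) := by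
  refine ⟨(n : ℝ) ^ ((1 : ℝ) / 8), ?_, ?_, ?_, ?_⟩
  · rw [← Real.rpow_natCast, ← Real.rpow_mul (by positivity)]
    norm_num
  · have h1 : ((p : ℝ)) ^ 8 ≤ ((n : ℝ) ^ ((1 : ℝ) / 8)) ^ 8 := by
      have : ((n : ℝ) ^ ((1 : ℝ) / 8)) ^ 8 = n := by
        rw [← Real.rpow_natCast, ← Real.rpow_mul (by positivity)]
        norm_num
      rw [this]
      exact_mod_cast hp8
    exact le_of_pow_le_pow_left₀ (by norm_num) (by positivity) h1
  · have h1 : ((A : ℝ)) ^ 4 ≤ (((n : ℝ) ^ ((1 : ℝ) / 8)) ^ 2) ^ 4 := by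
      have : (((n : ℝ) ^ ((1 : ℝ) / 8)) ^ 2) ^ 4 = n := by
        rw [← pow_mul, ← Real.rpow_natCast, ← Real.rpow_mul (by positivity)]
        norm_num
      rw [this]
      exact_mod_cast hA4
    exact le_of_pow_le_pow_left₀ (by norm_num) (by positivity) h1
  · set a := (n : ℝ) ^ ((1 : ℝ) / 8) with ha
    have ha8 : a ^ 8 = n := by
      rw [ha, ← Real.rpow_natCast, ← Real.rpow_mul (by positivity)]
      norm_num
    have hpa : (p : ℝ) ≤ a := by
      apply le_of_pow_le_pow_left₀ (n := 8) (by norm_num) (by positivity)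
      rw [ha8]
      exact_mod_cast hp8
    have hapos : 0 < a := by
      rw [ha]
      exact Real.rpow_pos_of_pos (by exact_mod_cast Nat.pos_of_ne_zero hn) _
    have h1 : (n : ℝ) ≤ p * sp n := by exact_mod_cast sp_lb hn hp hpn
    have h2 : a ^ 8 ≤ a * sp n := by
      rw [ha8]
      exact h1.trans (mul_le_mul_of_nonneg_right hpa (by positivity))
    have h3 : a * a ^ 7 ≤ a * sp n := by
      have : a * a ^ 7 = a ^ 8 := by ring
      rw [this]; exact h2
    exact le_of_mul_le_mul_left h3 hapos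

lemma good_extend {n A p q : ℕ} (hA : 1 ≤ A) (hA4 : A ^ 4 ≤ n) (hp : p.Prime) (hpn : p ∣ n)
    (hp8 : p ^ 8 ≤ n) (hI : Itv n A) (hq : q.Prime) (hqn : q.Coprime n)
    (h1 : (q + 2) * A ≤ sp n + 1) (h2 : n + 2 * A * (q + 1) ≤ (q + 1) * sp n + 1) :
    Good (q * n) := by
  have hsgq : sg q = q + 1 := by
    unfold sg
    rw [hq.divisors, Finset.sum_pair hq.one_lt.ne]
    ring
  have hn2 : 2 ≤ n := good_two_le ⟨A, p, hA, hA4, hp, hpn, hp8, hI⟩
  have hle : n ≤ q * n := Nat.le_mul_of_pos_left _ hq.pos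
  refine ⟨A, p, hA, hA4.trans hle, hp, hpn.trans (Dvd.intro_left q rfl), hp8.trans hle, ?_⟩
  apply merge hqn hq.two_le hn2 hA hI (gap_prime hq)
  · rw [hsgq]; exact h1
  · rw [hsgq]; linarith

lemma good_merge {n A p n' A' p' : ℕ} (hA : 1 ≤ A) (hA4 : A ^ 4 ≤ n) (hp : p.Prime) (hpn : p ∣ n)
    (hp8 : p ^ 8 ≤ n) (hI : Itv n A)
    (hA' : 1 ≤ A') (hA4' : A' ^ 4 ≤ n') (hp' : p'.Prime) (hpn' : p' ∣ n')
    (hp8' : p' ^ 8 ≤ n') (hI' : Itv n' A') (hsp : 2 * A ≤ sp n)
    (hcop : n.Coprime n')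
    (h1 : (sg n + 1) * A' ≤ sp n' + 1) (h2 : n' * A + 2 * A' * sg n ≤ sg n * sp n' + 1) :
    Good (n * n') := by
  have hn2 : 2 ≤ n := good_two_le ⟨A, p, hA, hA4, hp, hpn, hp8, hI⟩
  have hn2' : 2 ≤ n' := good_two_le ⟨A', p', hA', hA4', hp', hpn', hp8', hI'⟩
  have hle : n' ≤ n * n' := Nat.le_mul_of_pos_left _ (by omega)
  refine ⟨A', p', hA', hA4'.trans hle, hp', hpn'.trans (Dvd.intro_left n rfl), hp8'.trans hle, ?_⟩
  exact merge hcop hn2 hn2' hA' hI' (hI.gap hA hsp) h1 h2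

end Pool.Agent.W55.Weird
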