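import Pool.Agent.W55.Weird.Basic

set_option autoImplicit false

namespace Pool.Agent.W55.Weird

open Finset

lemma sg_mul {a b : ℕ} (hab : a.Coprime b) : sg (a * b) = sg a * sg b := hab.sum_divisors_mul

lemma combine {a b : ℕ} (hab : a.Coprime b) (ha : a ≠ 0) (hb : b ≠ 0) (t : ℕ)
    (ht : SSet a.properDivisors t)
    (y : ℕ → ℕ) (hy : ∀ d ∈ a.divisors, SSet b.properDivisors (y d)) :
    SSet (a * b).properDivisors (b * t + ∑ d ∈ a.divisors, d * y d) := by
  classical
  obtain ⟨S, hS, rfl⟩ := ht
  choose! E hE hEs using hy
  set E' : ℕ → Finset ℕ := fun d => if d ∈ S then insert b (E d) else E d with hE'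
  have hbE : ∀ d ∈ a.divisors, b ∉ E d := by
    intro d hd hbd
    have := hE d hd hbd
    simp [Nat.mem_properDivisors] at this
  refine ⟨(((a.divisors ×ˢ b.divisors).filter (fun x => x.2 ∈ E' x.1)).image
    (fun x => x.1 * x.2)), ?_, ?_⟩
  · intro n hn
    simp only [Finset.mem_image, Finset.mem_filter, Finset.mem_product, Nat.mem_divisors] at hn
    obtain ⟨⟨d, e⟩, ⟨⟨⟨hd, _⟩, he, _⟩, hde⟩, rfl⟩ := hn
    simp only at hd he hde ⊢
    rw [Nat.mem_properDivisors]
    refine ⟨Nat.mul_dvd_mul hd he, ?_⟩
    have hda : d ≤ a := Nat.le_of_dvd (Nat.pos_of_ne_zero ha) hd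
    have heb : e ≤ b := Nat.le_of_dvd (Nat.pos_of_ne_zero hb) he
    have hdpos : 0 < d := Nat.pos_of_dvd_of_pos hd (Nat.pos_of_ne_zero ha)
    have hepos : 0 < e := Nat.pos_of_dvd_of_pos he (Nat.pos_of_ne_zero hb)
    have hdm : d ∈ a.divisors := by rw [Nat.mem_divisors]; exact ⟨hd, ha⟩
    by_cases hdS : d ∈ S
    · have h1 := hS hdS
      rw [Nat.mem_properDivisors] at h1
      calc d * e < a * e := Nat.mul_lt_mul_of_pos_right h1.2 hepos
        _ ≤ a * b := Nat.mul_le_mul_left _ heb
    · have h2 : e ∈ E d := by simpa [hE', hdS] using hde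
      have h3 := hE d hdm h2
      rw [Nat.mem_properDivisors] at h3
      calc d * e < d * b := Nat.mul_lt_mul_of_pos_left h3.2 hdpos
        _ ≤ a * b := Nat.mul_le_mul_right _ hda
  · rw [Finset.sum_image]
    · rw [Finset.sum_filter, Finset.sum_product]
      have key : ∀ d ∈ a.divisors, (∑ e ∈ b.divisors, if e ∈ E' d then d * e else 0) =
          d * y d + (if d ∈ S then d * b else 0) := by
        intro d hd
        have hE'sub : E' d ⊆ b.divisors := by
          intro e he
          by_cases hdS : d ∈ S
          · simp only [hE', hdS, if_true, Finset.mem_insert] at he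
            rcases he with rfl | he
            · simp [hb]
            · exact Nat.properDivisors_subset_divisors (hE d hd he)
          · simp only [hE', hdS, if_false] at he
            exact Nat.properDivisors_subset_divisors (hE d hd he)
        rw [← Finset.sum_filter]
        have : b.divisors.filter (fun e => e ∈ E' d) = E' d := by
          ext e
          simp only [Finset.mem_filter]
          exact ⟨fun h => h.2, fun h => ⟨hE'sub h, h⟩⟩
        rw [this, ← Finset.mul_sum]
        by_cases hdS : d ∈ S
        · simp only [hE', hdS, if_true]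
          rw [Finset.sum_insert (hbE d hd), hEs d hd]
          ring
        · simp only [hE', hdS, if_false]
          rw [hEs d hd]
          ring
      rw [Finset.sum_congr rfl key, Finset.sum_add_distrib, add_comm]
      congr 1
      rw [← Finset.sum_filter]
      have : a.divisors.filter (fun d => d ∈ S) = S := by
        ext d
        simp only [Finset.mem_filter]
        exact ⟨fun h => h.2, fun h => ⟨Nat.properDivisors_subset_divisors (hS h), h⟩⟩
      rw [this, Finset.mul_sum]
      exact Finset.sum_congr rfl (fun d _ => mul_comm _ _)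
    · intro x hx y hy hxy
      simp only [Finset.coe_filter, Set.mem_ofPred_eq] at hx hy
      exact hab.mul_injOn_divisors (by exact_mod_cast hx.1) (by exact_mod_cast hy.1) hxy

theorem merge {a b A g : ℕ} (hab : a.Coprime b) (ha : 2 ≤ a) (hb : 2 ≤ b) (hA : 1 ≤ A)
    (hI : Itv b A) (hG : Gap a g) (h1 : (sg a + 1) * A ≤ sp b + 1)
    (h2 : b * g + 2 * A * sg a ≤ sg a * sp b + 1) : Itv (a * b) A := by
  have hsga : a + 1 ≤ sg a := by
    unfold sg
    have : ({1, a} : Finset ℕ) ⊆ a.divisors := by
      intro x hx
      simp only [Finset.mem_insert, Finset.mem_singleton] at hx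
      rcases hx with rfl | rfl <;> simp <;> omega
    calc a + 1 = ∑ d ∈ ({1, a} : Finset ℕ), d := by
          rw [Finset.sum_pair (by omega)]; ring
      _ ≤ _ := Finset.sum_le_sum_of_subset this
  have hsb : 2 * A ≤ sp b := by
    nlinarith
  have hspab : sp (a * b) = b * sp a + sg a * sp b := by
    have e1 := sg_mul hab
    have e2 := @sg_eq (a * b)
    have e3 := @sg_eq a
    have e4 := @sg_eq b
    rw [e2, e3, e4] at e1
    rw [e3]
    nlinarith
  -- main range
  have main : ∀ x, sg a * A ≤ x → x + sg a * A ≤ sp (a * b) → SSet (a * b).properDivisors x := by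
    intro x hx1 hx2
    have hbpos : 0 < b := by omega
    -- choose t
    obtain ⟨t, ht, htle, htrest⟩ : ∃ t, SSet a.properDivisors t ∧ b * t ≤ x - sg a * A ∧
        x - sg a * A - b * t ≤ sg a * (sp b - 2 * A) := by
      have hw : sg a * (sp b - 2 * A) + 2 * A * sg a = sg a * sp b := by
        have : sp b = (sp b - 2 * A) + 2 * A := by omega
        calc sg a * (sp b - 2 * A) + 2 * A * sg a = sg a * ((sp b - 2 * A) + 2 * A) := by ring
          _ = _ := by rw [← this]
      by_cases hc : (x - sg a * A) / b ≤ sp a
      · obtain ⟨t, ht, ht1, ht2⟩ := hG _ hc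
        refine ⟨t, ht, ?_, ?_⟩
        · calc b * t ≤ b * ((x - sg a * A) / b) := Nat.mul_le_mul_left _ ht1
            _ ≤ _ := Nat.mul_div_le _ _
        · have h3 : x - sg a * A < b * ((x - sg a * A) / b + 1) := by
            have := Nat.lt_div_mul_add hbpos (a := x - sg a * A)
            linarith [mul_comm b ((x - sg a * A) / b + 1), mul_comm b ((x - sg a * A) / b)]
          have h4 : b * ((x - sg a * A) / b + 1) ≤ b * (t + g) := Nat.mul_le_mul_left _ ht2
          have h5 : b * (t + g) = b * t + b * g := by ring
          omega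
      · refine ⟨sp a, ⟨a.properDivisors, subset_rfl, rfl⟩, ?_, ?_⟩
        · calc b * sp a ≤ b * ((x - sg a * A) / b) := Nat.mul_le_mul_left _ (by omega)
            _ ≤ _ := Nat.mul_div_le _ _
        · have : 2 * A * sg a = sg a * A + sg a * A := by ring
          omega
    -- fill
    have h1a : 1 ∈ a.divisors := by simp; omega
    obtain ⟨y, hy1, hy2⟩ := fill a.divisors (sp b - 2 * A) h1a (by
        intro d hd
        have hd' := Nat.divisor_le hd
        have hdp := Nat.pos_of_mem_divisors hd
        refine ⟨hdp, ?_⟩
        have e5 : (a + 2) * A ≤ (sg a + 1) * A := Nat.mul_le_mul_right _ (by omega)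
        have e6 : a * 1 ≤ a * A := Nat.mul_le_mul_left _ hA
        have e7 : (a + 2) * A = a * A + 2 * A := by ring
        omega) (x - sg a * A - b * t) (by
        have : (sp b - 2 * A) * ∑ d ∈ a.divisors, d = sg a * (sp b - 2 * A) := by
          unfold sg; ring
        rw [this]; exact htrest)
    have hcomb := combine hab (by omega) (by omega) t ht (fun d => A + y d) (by
      intro d hd
      have := hy1 d hd
      exact hI _ (by omega) (by omega))
    convert hcomb using 1
    have e1 : ∑ d ∈ a.divisors, d * (A + y d) = sg a * A + ∑ d ∈ a.divisors, d * y d := by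
      unfold sg
      rw [Finset.sum_mul, ← Finset.sum_add_distrib]
      exact Finset.sum_congr rfl (fun d _ => by ring)
    rw [e1, hy2]
    omega
  -- low range
  have low : ∀ x, A ≤ x → x + sg a * A ≤ sp (a * b) → SSet (a * b).properDivisors x := by
    intro x hx1 hx2
    by_cases hc : sg a * A ≤ x
    · exact main x hc hx2
    · have h3 : x + A ≤ sp b := by
        have : (sg a + 1) * A = sg a * A + A := by ring
        omega
      refine (hI x hx1 h3).mono ?_
      intro d hd
      rw [Nat.mem_properDivisors] at hd ⊢
      refine ⟨hd.1.trans (Dvd.intro_left a rfl), hd.2.trans_le ?_⟩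
      exact Nat.le_mul_of_pos_left _ (by omega)
  intro x hx1 hx2
  by_cases hc : x + sg a * A ≤ sp (a * b)
  · exact low x hx1 hc
  · have h3 : sg a * A * 2 ≤ sp (a * b) := by
      rw [hspab]
      nlinarith
    have h4 := low (sp (a * b) - x) (by omega) (by omega)
    have h5 := h4.compl
    have h6 : (∑ i ∈ (a * b).properDivisors, i) = sp (a * b) := rfl
    rw [h6] at h5
    have h7 : x ≤ sp (a * b) := by omega
    have : sp (a * b) - (sp (a * b) - x) = x := by omega
    rwa [this] at h5

end Pool.Agent.W55.Weird
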