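import Pool.Agent.W55.Weird.Struct

set_option autoImplicit false

namespace Pool.Agent.W55.Weird

open Finset

/-- `n` is good: the sums of distinct proper divisors fill `[A, sp n - A]` with `A` small. -/
def Good (n : ℕ) : Prop := ∃ A p, 1 ≤ A ∧ A ^ 4 ≤ n ∧ p.Prime ∧ p ∣ n ∧ p ^ 8 ≤ n ∧ Itv n A

lemma prod_inj {P : Finset ℕ} (hP : ∀ p ∈ P, p.Prime) {S S' : Finset ℕ} (hS : S ⊆ P)
    (hS' : S' ⊆ P) (h : ∏ p ∈ S, p = ∏ p ∈ S', p) : S = S' := by
  have h1 := Nat.primeFactors_prod (s := S) (fun p hp => hP p (hS hp))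
  have h2 := Nat.primeFactors_prod (s := S') (fun p hp => hP p (hS' hp))
  rw [← h1, ← h2, h]

lemma squarefree_prod {P : Finset ℕ} (hP : ∀ p ∈ P, p.Prime) : Squarefree (∏ p ∈ P, p) := by
  refine Finset.squarefree_prod_of_pairwise_isCoprime (fun p hp q hq hpq ↦ ?_)
    fun p hp ↦ (hP p hp).squarefree
  simp only [Function.onFun, ← Nat.coprime_iff_isRelPrime]
  exact (Nat.coprime_primes (hP p hp) (hP q hq)).mpr hpq

lemma dvd_prod_iff {P : Finset ℕ} (hP : ∀ p ∈ P, p.Prime) {d : ℕ} (hd : d ∣ ∏ p ∈ P, p) :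
    ∃ S ⊆ P, d = ∏ p ∈ S, p := by
  have hsq := squarefree_prod hP
  have hne : (∏ p ∈ P, p) ≠ 0 := hsq.ne_zero
  refine ⟨d.primeFactors, ?_, ?_⟩
  · have := Nat.primeFactors_mono hd hne
    rwa [Nat.primeFactors_prod hP] at this
  · exact (Nat.prod_primeFactors_of_squarefree (hsq.squarefree_of_dvd hd)).symm

lemma sum_lb {ι : Type*} (Q : Finset ι) (f : ι → ℕ) (hinj : Set.InjOn f Q) (B : Finset ℕ)
    (hB : ∀ x ∈ Q, f x ∈ B) : ∑ x ∈ Q, f x ≤ ∑ b ∈ B, b := by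
  classical
  rw [← Finset.sum_image (f := fun b => b) hinj]
  apply Finset.sum_le_sum_of_subset
  intro b hb
  rw [Finset.mem_image] at hb
  obtain ⟨x, hx, rfl⟩ := hb
  exact hB x hx

lemma choose_two_lb (e r : ℕ) (he : 2 ≤ e) (hr : 2 ^ e ≤ r) : 2 ^ (2 * e - 3) ≤ r.choose 2 := by
  have h1 := Nat.pow_sub_le_descFactorial r 2
  rw [Nat.descFactorial_eq_factorial_mul_choose] at h1
  have h2 : 2 ^ (e - 1) ≤ r + 1 - 2 := by
    have : 2 ^ e = 2 * 2 ^ (e - 1) := by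
      rw [← pow_succ']; congr 1; omega
    have h3 : 1 ≤ 2 ^ (e - 1) := Nat.one_le_two_pow
    omega
  have h3 : (2 ^ (e - 1)) ^ 2 ≤ (r + 1 - 2) ^ 2 := Nat.pow_le_pow_left h2 2
  rw [← pow_mul] at h3
  have h4 : 2 ^ ((e - 1) * 2) = 2 * 2 ^ (2 * e - 3) := by
    rw [← pow_succ']; congr 1; omega
  have h5 : Nat.factorial 2 = 2 := rfl
  rw [h5] at h1
  omega

lemma choose_three_lb (e r : ℕ) (he : 2 ≤ e) (hr : 2 ^ e ≤ r) : 2 ^ (3 * e - 6) ≤ r.choose 3 := by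
  have h1 := Nat.pow_sub_le_descFactorial r 3
  rw [Nat.descFactorial_eq_factorial_mul_choose] at h1
  have h2 : 2 ^ (e - 1) ≤ r + 1 - 3 := by
    have : 2 ^ e = 2 * 2 ^ (e - 1) := by
      rw [← pow_succ']; congr 1; omega
    have h3 : 2 ^ 1 ≤ 2 ^ (e - 1) := Nat.pow_le_pow_right (by norm_num) (by omega)
    omega
  have h3 : (2 ^ (e - 1)) ^ 3 ≤ (r + 1 - 3) ^ 3 := Nat.pow_le_pow_left h2 3
  rw [← pow_mul] at h3
  have h4 : 2 ^ ((e - 1) * 3) = 8 * 2 ^ (3 * e - 6) := by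
    rw [show (8 : ℕ) = 2 ^ 3 by norm_num, ← pow_add]; congr 1; omega
  have h5 : Nat.factorial 3 = 6 := rfl
  rw [h5] at h1
  omega

section nucleus

variable {i : ℕ} {P : Finset ℕ}

lemma lb (hP : ∀ p ∈ P, p.Prime ∧ 2 ^ (8 * i) ≤ p ∧ p ≤ 2 ^ (8 * i + 8)) {S : Finset ℕ}
    (hS : S ⊆ P) {s : ℕ} (hs : S.card = s) : 2 ^ (8 * i * s) ≤ ∏ p ∈ S, p := by
  rw [pow_mul, ← hs]
  exact Finset.pow_card_le_prod _ _ _ (fun p hp => (hP p (hS hp)).2.1)

lemma ub (hP : ∀ p ∈ P, p.Prime ∧ 2 ^ (8 * i) ≤ p ∧ p ≤ 2 ^ (8 * i + 8)) {S : Finset ℕ}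
    (hS : S ⊆ P) {s : ℕ} (hs : S.card = s) : ∏ p ∈ S, p ≤ 2 ^ ((8 * i + 8) * s) := by
  rw [pow_mul, ← hs]
  exact Finset.prod_le_pow_card _ _ _ (fun p hp => (hP p (hS hp)).2.2)

/-- case A -/
lemma caseA (hi : 40 ≤ i) (hP : ∀ p ∈ P, p.Prime ∧ 2 ^ (8 * i) ≤ p ∧ p ≤ 2 ^ (8 * i + 8))
    (hc : P.card = 2 ^ (7 * i)) (B : Finset ℕ)
    (hB : ∀ F ⊆ P, F ≠ P → F.card ≠ 1 → F.card ≠ 3 → ∏ p ∈ F, p ∈ B)
    (S : Finset ℕ) (hS : S ⊆ P) (h5 : 5 ≤ S.card) (hS2 : 2 * S.card ≤ P.card) :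
    ∏ p ∈ S, p ≤ ∑ e ∈ B.filter (· < ∏ p ∈ S, p), e := by
  classical
  have hPp : ∀ p ∈ P, p.Prime := fun p hp => (hP p hp).1
  obtain ⟨T3, hT3, hT3c⟩ := Finset.exists_subset_card_eq (show 3 ≤ S.card by omega)
  set d := ∏ p ∈ S, p with hd
  have hdpos : 0 < d := Finset.prod_pos (fun p hp => (hPp p (hS hp)).pos)
  set a := ∏ p ∈ S \ T3, p with ha
  have hapos : 0 < a := Finset.prod_pos (fun p hp =>
    (hPp p (hS (Finset.sdiff_subset hp))).pos)
  have hda : a * ∏ p ∈ T3, p = d := Finset.prod_sdiff hT3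
  have hT3lb : 2 ^ (8 * i * 3) ≤ ∏ p ∈ T3, p := lb hP (hT3.trans hS) hT3c
  have hT3ub : ∏ p ∈ T3, p ≤ 2 ^ ((8 * i + 8) * 3) := ub hP (hT3.trans hS) hT3c
  set Q := (P \ S).powersetCard 2 with hQ
  have hcQ : 2 ^ (14 * i - 5) ≤ Q.card := by
    rw [hQ, Finset.card_powersetCard, Finset.card_sdiff_of_subset hS]
    have h1 : 2 ^ (7 * i - 1) ≤ P.card - S.card := by
      have : 2 ^ (7 * i) = 2 * 2 ^ (7 * i - 1) := by
        rw [← pow_succ']; congr 1; omega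
      omega
    have := choose_two_lb (7 * i - 1) _ (by omega) h1
    have e : 2 * (7 * i - 1) - 3 = 14 * i - 5 := by omega
    rwa [e] at this
  have hfacts : ∀ q ∈ Q, q ⊆ P ∧ q.card = 2 ∧ Disjoint (S \ T3) q := by
    intro q hq
    rw [hQ, Finset.mem_powersetCard] at hq
    refine ⟨hq.1.trans Finset.sdiff_subset, hq.2, ?_⟩
    rw [Finset.disjoint_left]
    intro x hx hx'
    have := hq.1 hx'
    rw [Finset.mem_sdiff] at this hx
    exact this.2 hx.1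
  have key : ∑ q ∈ Q, a * ∏ p ∈ q, p ≤ ∑ e ∈ B.filter (· < d), e := by
    apply sum_lb
    · intro q hq q' hq' h
      simp only at h
      have h1 := Nat.eq_of_mul_eq_mul_left hapos h
      exact prod_inj hPp (hfacts q hq).1 (hfacts q' hq').1 h1
    · intro q hq
      obtain ⟨hqP, hqc, hdisj⟩ := hfacts q hq
      rw [Finset.mem_filter]
      constructor
      · have hcard : ((S \ T3) ∪ q).card = S.card - 1 := by
          rw [Finset.card_union_of_disjoint hdisj, Finset.card_sdiff_of_subset hT3]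
          omega
        have := hB ((S \ T3) ∪ q) (Finset.union_subset (Finset.sdiff_subset.trans hS) hqP)
          (by intro h; rw [h] at hcard; omega) (by omega) (by omega)
        rwa [Finset.prod_union hdisj] at this
      · have h1 : ∏ p ∈ q, p < ∏ p ∈ T3, p := by
          calc ∏ p ∈ q, p ≤ 2 ^ ((8 * i + 8) * 2) := ub hP hqP hqc
            _ < 2 ^ (8 * i * 3) := Nat.pow_lt_pow_right (by norm_num) (by omega)
            _ ≤ _ := hT3lb
        rw [← hda]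
        exact Nat.mul_lt_mul_of_pos_left h1 hapos
  refine le_trans ?_ key
  -- multiply by 2^(24 i + 24)
  have h1 : ∀ q ∈ Q, d * 2 ^ (8 * i * 2) ≤ (a * ∏ p ∈ q, p) * 2 ^ ((8 * i + 8) * 3) := by
    intro q hq
    obtain ⟨hqP, hqc, hdisj⟩ := hfacts q hq
    calc d * 2 ^ (8 * i * 2) ≤ d * ∏ p ∈ q, p := Nat.mul_le_mul_left _ (lb hP hqP hqc)
      _ = (a * ∏ p ∈ q, p) * ∏ p ∈ T3, p := by rw [← hda]; ring
      _ ≤ _ := Nat.mul_le_mul_left _ hT3ub
  have h2 : Q.card * (d * 2 ^ (8 * i * 2)) ≤ (∑ q ∈ Q, a * ∏ p ∈ q, p) * 2 ^ ((8 * i + 8) * 3) := by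
    rw [Finset.sum_mul]
    calc Q.card * (d * 2 ^ (8 * i * 2)) = ∑ q ∈ Q, d * 2 ^ (8 * i * 2) := by simp
      _ ≤ _ := Finset.sum_le_sum h1
  have h3 : d * 2 ^ ((8 * i + 8) * 3) ≤ Q.card * (d * 2 ^ (8 * i * 2)) := by
    calc d * 2 ^ ((8 * i + 8) * 3) ≤ d * 2 ^ ((14 * i - 5) + 8 * i * 2) := by
          apply Nat.mul_le_mul_left
          exact Nat.pow_le_pow_right (by norm_num) (by omega)
      _ = 2 ^ (14 * i - 5) * (d * 2 ^ (8 * i * 2)) := by rw [pow_add]; ring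
      _ ≤ _ := Nat.mul_le_mul_right _ hcQ
  exact Nat.le_of_mul_le_mul_right (h3.trans h2) (by positivity)

/-- case B -/
lemma caseB (hi : 40 ≤ i) (hP : ∀ p ∈ P, p.Prime ∧ 2 ^ (8 * i) ≤ p ∧ p ≤ 2 ^ (8 * i + 8))
    (hc : P.card = 2 ^ (7 * i)) (B : Finset ℕ)
    (hB : ∀ F ⊆ P, F ≠ P → F.card ≠ 1 → F.card ≠ 3 → ∏ p ∈ F, p ∈ B)
    (S : Finset ℕ) (hS : S ⊆ P) (h5 : 5 ≤ S.card) (hSP : S ≠ P) (hS2 : P.card < 2 * S.card) :
    ∏ p ∈ S, p ≤ ∑ e ∈ B.filter (· < ∏ p ∈ S, p), e := by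
  classical
  have hPp : ∀ p ∈ P, p.Prime := fun p hp => (hP p hp).1
  obtain ⟨q, hqP, hqS⟩ : ∃ q ∈ P, q ∉ S := by
    by_contra hcon
    push Not at hcon
    exact hSP (Finset.Subset.antisymm hS hcon)
  set d := ∏ p ∈ S, p with hd
  have hdpos : 0 < d := Finset.prod_pos (fun p hp => (hPp p (hS hp)).pos)
  have hqpos : 0 < q := (hPp q hqP).pos
  set Q := S.powersetCard 2 with hQ
  have hcQ : 2 ^ (14 * i - 5) ≤ Q.card := by
    rw [hQ, Finset.card_powersetCard]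
    have h1 : 2 ^ (7 * i - 1) ≤ S.card := by
      have : 2 ^ (7 * i) = 2 * 2 ^ (7 * i - 1) := by
        rw [← pow_succ']; congr 1; omega
      omega
    have := choose_two_lb (7 * i - 1) _ (by omega) h1
    have e : 2 * (7 * i - 1) - 3 = 14 * i - 5 := by omega
    rwa [e] at this
  have hfacts : ∀ t ∈ Q, t ⊆ S ∧ t.card = 2 ∧ (∏ p ∈ S \ t, p) * ∏ p ∈ t, p = d := by
    intro t ht
    rw [hQ, Finset.mem_powersetCard] at ht
    exact ⟨ht.1, ht.2, Finset.prod_sdiff ht.1⟩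
  have key : ∑ t ∈ Q, q * ∏ p ∈ S \ t, p ≤ ∑ e ∈ B.filter (· < d), e := by
    apply sum_lb
    · intro t ht t' ht' h
      simp only at h
      have h1 := Nat.eq_of_mul_eq_mul_left hqpos h
      have h2 := prod_inj hPp (Finset.sdiff_subset.trans hS) (Finset.sdiff_subset.trans hS) h1
      have h3 := (hfacts t ht).1
      have h4 := (hfacts t' ht').1
      calc t = S \ (S \ t) := by rw [Finset.sdiff_sdiff_eq_self h3]
        _ = S \ (S \ t') := by rw [h2]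
        _ = t' := by rw [Finset.sdiff_sdiff_eq_self h4]
    · intro t ht
      obtain ⟨htS, htc, htd⟩ := hfacts t ht
      rw [Finset.mem_filter]
      constructor
      · have hqn : q ∉ S \ t := fun h => hqS (Finset.sdiff_subset h)
        have hcard : (insert q (S \ t)).card = S.card - 1 := by
          rw [Finset.card_insert_of_notMem hqn, Finset.card_sdiff_of_subset htS]
          omega
        have hScard : S.card < P.card := Finset.card_lt_card (Finset.ssubset_iff_subset_ne.mpr ⟨hS, hSP⟩)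
        have := hB (insert q (S \ t)) (Finset.insert_subset hqP (Finset.sdiff_subset.trans hS))
          (by intro h; rw [h] at hcard; omega) (by omega) (by omega)
        rwa [Finset.prod_insert hqn] at this
      · have h1 : q < ∏ p ∈ t, p := by
          calc q ≤ 2 ^ (8 * i + 8) := (hP q hqP).2.2
            _ < 2 ^ (8 * i * 2) := Nat.pow_lt_pow_right (by norm_num) (by omega)
            _ ≤ _ := lb hP (htS.trans hS) htc
        rw [← htd, mul_comm]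
        have hpos : 0 < ∏ p ∈ S \ t, p := Finset.prod_pos (fun p hp =>
          (hPp p (hS (Finset.sdiff_subset hp))).pos)
        exact Nat.mul_lt_mul_of_pos_left h1 hpos
  refine le_trans ?_ key
  have h1 : ∀ t ∈ Q, d * 2 ^ (8 * i) ≤ (q * ∏ p ∈ S \ t, p) * 2 ^ ((8 * i + 8) * 2) := by
    intro t ht
    obtain ⟨htS, htc, htd⟩ := hfacts t ht
    calc d * 2 ^ (8 * i) ≤ d * q := Nat.mul_le_mul_left _ (hP q hqP).2.1
      _ = (q * ∏ p ∈ S \ t, p) * ∏ p ∈ t, p := by rw [← htd]; ring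
      _ ≤ _ := Nat.mul_le_mul_left _ (ub hP (htS.trans hS) htc)
  have h2 : Q.card * (d * 2 ^ (8 * i)) ≤ (∑ t ∈ Q, q * ∏ p ∈ S \ t, p) * 2 ^ ((8 * i + 8) * 2) := by
    rw [Finset.sum_mul]
    calc Q.card * (d * 2 ^ (8 * i)) = ∑ q ∈ Q, d * 2 ^ (8 * i) := by simp
      _ ≤ _ := Finset.sum_le_sum h1
  have h3 : d * 2 ^ ((8 * i + 8) * 2) ≤ Q.card * (d * 2 ^ (8 * i)) := by
    calc d * 2 ^ ((8 * i + 8) * 2) ≤ d * 2 ^ ((14 * i - 5) + 8 * i) := by
          apply Nat.mul_le_mul_left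
          exact Nat.pow_le_pow_right (by norm_num) (by omega)
      _ = 2 ^ (14 * i - 5) * (d * 2 ^ (8 * i)) := by rw [pow_add]; ring
      _ ≤ _ := Nat.mul_le_mul_right _ hcQ
  exact Nat.le_of_mul_le_mul_right (h3.trans h2) (by positivity)

end nucleus

end Pool.Agent.W55.Weird
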