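import Pool.Agent.W55.Weird.Basic

set_option autoImplicit false

namespace Pool.Agent.W55.Weird

open Finset

/-- greedy extension of an interval of subset sums -/
lemma greedy (U B : Finset ℕ) (hUB : Disjoint U B) (lo hi : ℕ) (hlo : lo ≤ hi)
    (hU : ∀ x, lo ≤ x → x ≤ hi → SSet U x)
    (hB : ∀ d ∈ B, d ≤ hi - lo + 1 + ∑ e ∈ B.filter (· < d), e) :
    ∀ x, lo ≤ x → x ≤ hi + ∑ d ∈ B, d → SSet (U ∪ B) x := by
  classical
  induction B using Finset.induction_on_max with
  | empty =>
    intro x h1 h2
    simp only [Finset.sum_empty, add_zero] at h2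
    simpa using hU x h1 h2
  | insert a B hlt ih =>
    have haB : a ∉ B := fun h => lt_irrefl _ (hlt a h)
    have hUB' : Disjoint U B := hUB.mono_right (Finset.subset_insert _ _)
    have haU : a ∉ U := by
      intro h
      exact (Finset.disjoint_left.mp hUB h) (Finset.mem_insert_self _ _)
    have ih' := ih hUB' (by
      intro d hd
      have h1 := hB d (Finset.mem_insert_of_mem hd)
      have h2 : (insert a B).filter (· < d) = B.filter (· < d) := by
        rw [Finset.filter_insert, if_neg]
        exact not_lt.mpr (hlt d hd).le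
      rwa [h2] at h1)
    have ha := hB a (Finset.mem_insert_self _ _)
    have h2 : (insert a B).filter (· < a) = B := by
      rw [Finset.filter_insert, if_neg (lt_irrefl _)]
      exact Finset.filter_true_of_mem hlt
    rw [h2] at ha
    intro x h1 h3
    rw [Finset.sum_insert haB] at h3
    by_cases hc : x ≤ hi + ∑ d ∈ B, d
    · refine (ih' x h1 hc).mono ?_
      exact Finset.union_subset_union_right (Finset.subset_insert _ _)
    · obtain ⟨F, hF, hFs⟩ := ih' (x - a) (by omega) (by omega)
      refine ⟨insert a F, ?_, ?_⟩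
      · intro y hy
        simp only [Finset.mem_insert] at hy
        rcases hy with rfl | hy
        · simp
        · have := hF hy
          simp only [Finset.mem_union, Finset.mem_insert] at this ⊢
          tauto
      · have haF : a ∉ F := by
          intro h
          have := hF h
          simp only [Finset.mem_union] at this
          tauto
        rw [Finset.sum_insert haF, hFs]
        omega

lemma units_generate {M : ℕ} [NeZero M] (S : Finset (ZMod M)) (hS : S.Nonempty) (a : ZMod M)
    (ha : IsUnit a) (h : ∀ s ∈ S, s + a ∈ S) : S = Finset.univ := by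
  obtain ⟨s, hs⟩ := hS
  have key : ∀ k : ℕ, s + k * a ∈ S := by
    intro k
    induction k with
    | zero => simpa using hs
    | succ k ih =>
      have := h _ ih
      have e : s + ((k + 1 : ℕ) : ZMod M) * a = s + k * a + a := by push_cast; ring
      rwa [e]
  ext x
  simp only [Finset.mem_univ, iff_true]
  obtain ⟨u, rfl⟩ := ha
  have := key ((x - s) * (u⁻¹ : (ZMod M)ˣ)).val
  rw [ZMod.natCast_zmod_val] at this
  have e : s + (x - s) * (u⁻¹ : (ZMod M)ˣ) * u = x := by
    rw [mul_assoc, Units.inv_mul, mul_one]; ring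
  rwa [e] at this

/-- residues: `M - 1` numbers coprime to `M` have subset sums in all classes. -/
lemma residues {M : ℕ} [NeZero M] (R : Finset ℕ) (hcop : ∀ a ∈ R, a.Coprime M) :
    min M (R.card + 1) ≤ (R.powerset.image (fun F => ((∑ i ∈ F, i : ℕ) : ZMod M))).card := by
  classical
  induction R using Finset.induction_on with
  | empty =>
    simp
  | insert a R ha ih =>
    have ih' := ih (fun b hb => hcop b (Finset.mem_insert_of_mem hb))
    set S := R.powerset.image (fun F => ((∑ i ∈ F, i : ℕ) : ZMod M)) with hS
    set S' := (insert a R).powerset.image (fun F => ((∑ i ∈ F, i : ℕ) : ZMod M)) with hS'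
    have hSS' : S ⊆ S' := by
      apply Finset.image_subset_image
      exact Finset.powerset_mono.mpr (Finset.subset_insert _ _)
    have hadd : ∀ s ∈ S, s + (a : ZMod M) ∈ S' := by
      intro s hs
      rw [hS, Finset.mem_image] at hs
      obtain ⟨F, hF, rfl⟩ := hs
      rw [Finset.mem_powerset] at hF
      rw [hS', Finset.mem_image]
      refine ⟨insert a F, ?_, ?_⟩
      · rw [Finset.mem_powerset]
        exact Finset.insert_subset_insert _ hF
      · rw [Finset.sum_insert (fun h => ha (hF h))]
        push_cast
        ring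
    have hne : S.Nonempty := ⟨_, Finset.mem_image_of_mem _ (Finset.empty_mem_powerset R)⟩
    have hunit : IsUnit (a : ZMod M) := by
      rw [ZMod.isUnit_iff_coprime]
      exact hcop a (Finset.mem_insert_self _ _)
    rw [Finset.card_insert_of_notMem ha]
    by_cases hc : S = Finset.univ
    · have : S' = Finset.univ := by
        apply Finset.eq_univ_of_forall
        intro x
        exact hSS' (by rw [hc]; exact Finset.mem_univ x)
      rw [this, Finset.card_univ, ZMod.card]
      exact min_le_left _ _
    · have hss : S ⊂ S' := by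
        refine Finset.ssubset_iff_subset_ne.mpr ⟨hSS', ?_⟩
        intro heq
        apply hc
        apply units_generate S hne a hunit
        intro s hs
        rw [heq]
        exact hadd s hs
      have := Finset.card_lt_card hss
      omega

lemma residues' {M : ℕ} (hM : 1 ≤ M) (R : Finset ℕ) (hcop : ∀ a ∈ R, a.Coprime M)
    (hcard : M ≤ R.card + 1) (c : ℕ) : ∃ F ⊆ R, (∑ i ∈ F, i) % M = c % M := by
  classical
  have : NeZero M := ⟨by omega⟩
  have h := residues R hcop
  rw [min_eq_left hcard] at h
  have huniv : (R.powerset.image (fun F => ((∑ i ∈ F, i : ℕ) : ZMod M))) = Finset.univ := by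
    apply Finset.eq_univ_of_card
    rw [ZMod.card]
    apply le_antisymm _ h
    calc _ ≤ (Finset.univ : Finset (ZMod M)).card := Finset.card_le_univ _
      _ = M := by rw [Finset.card_univ, ZMod.card]
  have : (c : ZMod M) ∈ (R.powerset.image (fun F => ((∑ i ∈ F, i : ℕ) : ZMod M))) := by
    rw [huniv]; exact Finset.mem_univ _
  rw [Finset.mem_image] at this
  obtain ⟨F, hF, hFc⟩ := this
  refine ⟨F, Finset.mem_powerset.mp hF, ?_⟩
  rwa [ZMod.natCast_eq_natCast_iff'] at hFc

/-- the basic interval -/
lemma structure_interval {M : ℕ} (hM : 1 ≤ M) (R V : Finset ℕ) (hcop : ∀ a ∈ R, a.Coprime M)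
    (hcard : M ≤ R.card + 1) (hV : Disjoint V (V.image (· + M)))
    (hR : Disjoint R (V ∪ V.image (· + M))) :
    ∀ x, ∑ i ∈ V, i + ∑ i ∈ R, i ≤ x → x ≤ ∑ i ∈ V, i + V.card * M →
      SSet ((V ∪ V.image (· + M)) ∪ R) x := by
  classical
  intro x h1 h2
  obtain ⟨F, hF, hFm⟩ := residues' hM R hcop hcard (x - ∑ i ∈ V, i)
  have hFle : ∑ i ∈ F, i ≤ ∑ i ∈ R, i := Finset.sum_le_sum_of_subset hF
  have hdvd : M ∣ (x - ∑ i ∈ V, i) - ∑ i ∈ F, i :=
    (Nat.modEq_iff_dvd' (by omega)).mp hFm
  obtain ⟨j, hj⟩ := hdvd
  have hjV : j ≤ V.card := by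
    have : M * j ≤ M * V.card := by rw [← hj, mul_comm M V.card]; omega
    exact Nat.le_of_mul_le_mul_left this (by omega)
  obtain ⟨J, hJ, hJc⟩ := Finset.exists_subset_card_eq hjV
  refine ⟨((V \ J) ∪ J.image (· + M)) ∪ F, ?_, ?_⟩
  · apply Finset.union_subset_union _ hF
    exact Finset.union_subset_union Finset.sdiff_subset (Finset.image_subset_image hJ)
  · have hd1 : Disjoint (V \ J) (J.image (· + M)) :=
      Finset.disjoint_of_subset_left Finset.sdiff_subset
        (Finset.disjoint_of_subset_right (Finset.image_subset_image hJ) hV)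
    have hd2 : Disjoint ((V \ J) ∪ J.image (· + M)) F := by
      apply Finset.disjoint_of_subset_left _ (Finset.disjoint_of_subset_right hF hR.symm)
      exact Finset.union_subset_union Finset.sdiff_subset (Finset.image_subset_image hJ)
    rw [Finset.sum_union hd2, Finset.sum_union hd1, Finset.sum_image (by
      intro a _ b _ hab; exact Nat.add_right_cancel hab), Finset.sum_add_distrib]
    rw [Finset.sum_const, smul_eq_mul, hJc]
    have := Finset.sum_sdiff hJ (f := fun i => i)
    have e : j * M = M * j := mul_comm _ _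
    omega

/-- many disjoint pairs with the same difference -/
lemma pairs (D : Finset ℕ) (N H : ℕ) (hH : 1 ≤ H) (hD : ∀ x ∈ D, x < N)
    (hcard : 2 * (N / H + 1) ≤ D.card) :
    ∃ M V, 1 ≤ M ∧ M < H ∧ V ⊆ D ∧ V.image (· + M) ⊆ D ∧ Disjoint V (V.image (· + M)) ∧
      D.card ≤ 4 * H * V.card := by
  classical
  set D' := D.filter (fun u => ∃ v ∈ D, u < v ∧ v < u + H) with hD'
  have h1 : (D \ D').card ≤ N / H + 1 := by
    have hinj : Set.InjOn (fun u => u / H) (D \ D' : Finset ℕ) := by
      intro u hu v hv huv
      simp only at huv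
      rw [Finset.mem_coe, Finset.mem_sdiff] at hu hv
      by_contra hne
      rcases lt_or_gt_of_ne hne with hlt | hlt
      · apply hu.2
        rw [hD', Finset.mem_filter]
        refine ⟨hu.1, v, hv.1, hlt, ?_⟩
        have a1 := Nat.div_add_mod u H
        have a2 := Nat.div_add_mod v H
        have a3 := Nat.mod_lt v (by omega : H > 0)
        rw [huv] at a1
        omega
      · apply hv.2
        rw [hD', Finset.mem_filter]
        refine ⟨hv.1, u, hu.1, hlt, ?_⟩
        have a1 := Nat.div_add_mod u H
        have a2 := Nat.div_add_mod v H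
        have a3 := Nat.mod_lt u (by omega : H > 0)
        rw [huv] at a1
        omega
    have := Finset.card_image_of_injOn hinj
    rw [← this]
    have hsub : (D \ D').image (fun u => u / H) ⊆ Finset.range (N / H + 1) := by
      intro w hw
      rw [Finset.mem_image] at hw
      obtain ⟨u, hu, rfl⟩ := hw
      rw [Finset.mem_range]
      have := hD u (Finset.mem_sdiff.mp hu).1
      have : u / H ≤ N / H := Nat.div_le_div_right this.le
      omega
    calc _ ≤ (Finset.range (N / H + 1)).card := Finset.card_le_card hsub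
      _ = _ := Finset.card_range _
  have h2 : D.card ≤ 2 * D'.card := by
    have := Finset.card_sdiff_add_card_eq_card (Finset.filter_subset (fun u => ∃ v ∈ D, u < v ∧ v < u + H) D)
    rw [← hD'] at this
    omega
  -- choose M
  set VM : ℕ → Finset ℕ := fun M => D.filter (fun u => u + M ∈ D) with hVM
  have h3 : ∃ M ∈ Finset.Ico 1 H, D'.card ≤ H * (VM M).card := by
    by_contra hcon
    push Not at hcon
    have hsub : D' ⊆ (Finset.Ico 1 H).biUnion VM := by
      intro u hu
      rw [hD', Finset.mem_filter] at hu
      obtain ⟨huD, v, hv, huv, hvH⟩ := hu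
      rw [Finset.mem_biUnion]
      refine ⟨v - u, ?_, ?_⟩
      · rw [Finset.mem_Ico]; omega
      · rw [hVM, Finset.mem_filter]
        refine ⟨huD, ?_⟩
        have : u + (v - u) = v := by omega
        rwa [this]
    have h4 : D'.card ≤ ∑ M ∈ Finset.Ico 1 H, (VM M).card :=
      (Finset.card_le_card hsub).trans Finset.card_biUnion_le
    have h5 : H * ∑ M ∈ Finset.Ico 1 H, (VM M).card ≤ (H - 1) * D'.card := by
      rw [Finset.mul_sum]
      calc _ ≤ ∑ M ∈ Finset.Ico 1 H, D'.card := Finset.sum_le_sum (fun M hM => (hcon M hM).le)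
        _ = _ := by simp
    have h6 : 0 < D'.card := by
      have h61 : 2 ≤ D.card := le_trans (by nlinarith [Nat.zero_le (N / H)]) hcard
      omega
    have h7 : H * D'.card ≤ (H - 1) * D'.card := (Nat.mul_le_mul_left _ h4).trans h5
    have h8 : H ≤ H - 1 := Nat.le_of_mul_le_mul_right h7 h6
    omega
  obtain ⟨M, hM, hMc⟩ := h3
  rw [Finset.mem_Ico] at hM
  -- parity
  have h4 : ∃ ε, (VM M).card ≤ 2 * ((VM M).filter (fun u => (u / M) % 2 = ε)).card := by
    by_contra hcon
    push Not at hcon
    have h5 := hcon 0
    have h6 := hcon 1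
    have h7 : (VM M).card = ((VM M).filter (fun u => (u / M) % 2 = 0)).card +
        ((VM M).filter (fun u => (u / M) % 2 = 1)).card := by
      rw [← Finset.card_union_of_disjoint]
      · congr 1
        ext u
        simp only [Finset.mem_union, Finset.mem_filter]
        have : (u / M) % 2 = 0 ∨ (u / M) % 2 = 1 := Nat.mod_two_eq_zero_or_one _
        tauto
      · rw [Finset.disjoint_left]
        intro u h8 h9
        rw [Finset.mem_filter] at h8 h9
        omega
    omega
  obtain ⟨ε, hε⟩ := h4
  refine ⟨M, (VM M).filter (fun u => (u / M) % 2 = ε), hM.1, hM.2, ?_, ?_, ?_, ?_⟩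
  · exact (Finset.filter_subset _ _).trans (Finset.filter_subset _ _)
  · intro v hv
    rw [Finset.mem_image] at hv
    obtain ⟨u, hu, rfl⟩ := hv
    rw [Finset.mem_filter, hVM, Finset.mem_filter] at hu
    exact hu.1.2
  · rw [Finset.disjoint_left]
    intro v hv hv'
    rw [Finset.mem_image] at hv'
    obtain ⟨u, hu, rfl⟩ := hv'
    rw [Finset.mem_filter] at hu hv
    have e : (u + M) / M = u / M + 1 := Nat.add_div_right _ (by omega)
    rw [e] at hv
    omega
  · calc D.card ≤ 2 * D'.card := h2
      _ ≤ 2 * (H * (VM M).card) := by omega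
      _ ≤ 2 * (H * (2 * ((VM M).filter (fun u => (u / M) % 2 = ε)).card)) :=
          Nat.mul_le_mul_left _ (Nat.mul_le_mul_left _ hε)
      _ = _ := by ring

end Pool.Agent.W55.Weird
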